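import Mathlib

/-!
# Excursions of a curve outside a closed set
-/

open Set Filter Topology MeasureTheory
open scoped ENNReal

namespace Pool.Agent.R674.EX

/-- The set of times in `[0,1]` at which the curve `γ` is outside of `K`. -/
def outside {E : Type*} (K : Set E) (γ : ℝ → E) : Set ℝ := {t | t ∈ Icc (0 : ℝ) 1 ∧ γ t ∉ K}

/-- The length that the curve `γ` spends outside of `K`: the sum, over the connected components
`J` of the set of times at which `γ` is outside of `K`, of the length of `γ` on `J`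
(`eVariationOn` is the supremum of the inscribed polygonal sums). -/
noncomputable def excursionLength {E : Type*} [PseudoEMetricSpace E] (K : Set E) (γ : ℝ → E) :
    ℝ≥0∞ :=
  ∑' J : {J : Set ℝ // ∃ t ∈ outside K γ, J = connectedComponentIn (outside K γ) t},
    eVariationOn γ J.1

theorem comp_eq {U : Set ℝ} {a b t : ℝ} (hab : Ioo a b ⊆ U) (ha : a ∉ U) (hb : b ∉ U)
    (ht : t ∈ Ioo a b) : connectedComponentIn U t = Ioo a b := by
  apply Subset.antisymm
  · intro y hy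
    have hpre : IsPreconnected (connectedComponentIn U t) := isPreconnected_connectedComponentIn
    have hsub := connectedComponentIn_subset U t
    have htm : t ∈ connectedComponentIn U t := mem_connectedComponentIn (hab ht)
    have hord := hpre.ordConnected
    constructor
    · by_contra hcon
      exact ha (hsub (hord.out hy htm ⟨not_lt.1 hcon, ht.1.le⟩))
    · by_contra hcon
      exact hb (hsub (hord.out htm hy ⟨ht.2.le, not_lt.1 hcon⟩))
  · exact isPreconnected_Ioo.subset_connectedComponentIn ht hab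

theorem var_ge {E : Type*} [PseudoMetricSpace E] {γ : ℝ → E} (hγ : ContinuousOn γ (Icc 0 1))
    {a b : ℝ} (ha : 0 ≤ a) (hab : a < b) (hb : b ≤ 1) :
    edist (γ a) (γ b) ≤ eVariationOn γ (Ioo a b) := by
  have hd : Tendsto (fun n : ℕ => (b - a) / ((n : ℝ) + 3)) atTop (𝓝 0) := by
    apply Tendsto.div_atTop tendsto_const_nhds
    exact tendsto_atTop_add_const_right _ _ tendsto_natCast_atTop_atTop
  have hpos : ∀ n : ℕ, 0 < (b - a) / ((n : ℝ) + 3) := fun n => by
    have : 0 < b - a := sub_pos.2 hab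
    positivity
  have hlt : ∀ n : ℕ, (b - a) / ((n : ℝ) + 3) ≤ (b - a) / 3 := fun n => by
    have : 0 < b - a := sub_pos.2 hab
    apply div_le_div_of_nonneg_left this.le (by norm_num)
    have : (0 : ℝ) ≤ n := n.cast_nonneg
    linarith
  have hA : Tendsto (fun n : ℕ => γ (a + (b - a) / ((n : ℝ) + 3))) atTop (𝓝 (γ a)) := by
    have h1 : ContinuousWithinAt γ (Icc 0 1) a := hγ a ⟨ha, by linarith⟩
    apply h1.tendsto.comp
    apply tendsto_nhdsWithin_of_tendsto_nhds_of_eventually_within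
    · simpa using (tendsto_const_nhds (x := a)).add hd
    · filter_upwards with n
      have := hpos n; have := hlt n
      exact ⟨by linarith, by linarith⟩
  have hB : Tendsto (fun n : ℕ => γ (b - (b - a) / ((n : ℝ) + 3))) atTop (𝓝 (γ b)) := by
    have h1 : ContinuousWithinAt γ (Icc 0 1) b := hγ b ⟨by linarith, hb⟩
    apply h1.tendsto.comp
    apply tendsto_nhdsWithin_of_tendsto_nhds_of_eventually_within
    · simpa using (tendsto_const_nhds (x := b)).sub hd
    · filter_upwards with n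
      have := hpos n; have := hlt n
      exact ⟨by linarith, by linarith⟩
  refine le_of_tendsto (hA.edist hB) ?_
  filter_upwards with n
  have := hpos n; have := hlt n
  apply eVariationOn.edist_le
  · exact ⟨by linarith, by linarith⟩
  · exact ⟨by linarith, by linarith⟩

/-- a gap between two closed sets of times -/
theorem gap {T1 T2 : Set ℝ} (h1 : IsClosed T1) (h2 : IsClosed T2) {s t : ℝ} (hs : s ∈ T1)
    (ht : t ∈ T2) (hst : s ≤ t) (hdisj : ∀ x ∈ T1, x ∉ T2) :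
    ∃ a b, a ∈ T1 ∧ b ∈ T2 ∧ s ≤ a ∧ a < b ∧ b ≤ t ∧ ∀ x, a < x → x < b → x ∉ T1 ∧ x ∉ T2 := by
  obtain ⟨b, hb⟩ := ((isCompact_Icc (a := s) (b := t)).inter_right h2).exists_isLeast
    ⟨t, ⟨hst, le_rfl⟩, ht⟩
  have hbT := hb.1
  obtain ⟨a, ha⟩ := ((isCompact_Icc (a := s) (b := b)).inter_right h1).exists_isGreatest
    ⟨s, ⟨le_rfl, hbT.1.1⟩, hs⟩
  have haT := ha.1
  refine ⟨a, b, haT.2, hbT.2, haT.1.1, ?_, hbT.1.2, ?_⟩
  · rcases lt_or_eq_of_le haT.1.2 with h | h
    · exact h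
    · exact absurd hbT.2 (hdisj b (h ▸ haT.2))
  · intro x hax hxb
    constructor
    · intro hx
      exact absurd (ha.2 ⟨⟨haT.1.1.trans hax.le, hxb.le⟩, hx⟩) (not_le.2 hax)
    · intro hx
      exact absurd (hb.2 ⟨⟨haT.1.1.trans hax.le, hxb.le.trans hbT.1.2⟩, hx⟩) (not_le.2 hxb)

section

variable {E : Type*} [MetricSpace E] {K : Set E} {γ : ℝ → E}

/-- a gap is a component of the outside -/
theorem gap_comp {a b : ℝ} (hab : a < b) (ha0 : 0 ≤ a) (hb1 : b ≤ 1)
    (ha : γ a ∈ K) (hb : γ b ∈ K) (hx : ∀ x, a < x → x < b → γ x ∉ K) :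
    ∃ t ∈ outside K γ, Ioo a b = connectedComponentIn (outside K γ) t := by
  have hsub : Ioo a b ⊆ outside K γ := fun x hx' =>
    ⟨⟨ha0.trans hx'.1.le, hx'.2.le.trans hb1⟩, hx x hx'.1 hx'.2⟩
  have hmid : (a + b) / 2 ∈ Ioo a b := ⟨by linarith, by linarith⟩
  exact ⟨(a + b) / 2, hsub hmid, (comp_eq hsub (fun h => h.2 ha) (fun h => h.2 hb) hmid).symm⟩

theorem closed_times (hK : IsClosed K) (hγ : ContinuousOn γ (Icc 0 1)) {u v : ℝ} (hu : 0 ≤ u)
    (hv : v ≤ 1) : IsClosed {t | t ∈ Icc u v ∧ γ t ∈ K} := by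
  have h : ContinuousOn γ (Icc u v) := hγ.mono (Icc_subset_Icc hu hv)
  exact h.preimage_isClosed_of_isClosed isClosed_Icc hK

theorem count (hK : IsClosed K) (hγ : ContinuousOn γ (Icc 0 1)) {u v : ℝ} (hu : 0 ≤ u)
    (hv : v ≤ 1) (A : Set E) (hA : ∀ t ∈ Icc u v, γ t ∈ K → γ t ∈ A) (g : E → ℕ) (δ : ℝ)
    (hδ : 0 < δ) (hsep : ∀ z z', z ∈ K → z' ∈ K → z ∈ A → z' ∈ A → g z ≠ g z' → δ ≤ dist z z')
    (F : Finset ℕ) (hF : (F : Set ℕ) ⊆ (fun t => g (γ t)) '' {t | t ∈ Icc u v ∧ γ t ∈ K}) :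
    (F.card : ℝ≥0∞) * ENNReal.ofReal δ ≤ excursionLength K γ + ENNReal.ofReal δ := by
  classical
  set T := {t | t ∈ Icc u v ∧ γ t ∈ K} with hT
  have hTc : IsClosed T := closed_times hK hγ hu hv
  rcases F.eq_empty_or_nonempty with rfl | ⟨v₀, hv₀⟩
  · simp
  obtain ⟨t₀, ht₀, -⟩ := hF hv₀
  have hTcomp : IsCompact T := isCompact_Icc.of_isClosed_subset hTc (fun t ht => ht.1)
  obtain ⟨s₀, hs₀⟩ := hTcomp.exists_isLeast ⟨t₀, ht₀⟩
  -- `g ∘ γ` is continuous on `T`
  have hcont : ContinuousOn (fun t => g (γ t)) T := by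
    intro t ht
    have h1 : ContinuousWithinAt γ T t :=
      (hγ t ⟨hu.trans ht.1.1, ht.1.2.trans hv⟩).mono
        (fun x hx => ⟨hu.trans hx.1.1, hx.1.2.trans hv⟩)
    have h2 : ∀ᶠ x in 𝓝[T] t, dist (γ x) (γ t) < δ :=
      h1.eventually (Metric.ball_mem_nhds _ hδ)
    have h3 : ContinuousWithinAt (fun _ : ℝ => g (γ t)) T t := continuousWithinAt_const
    refine h3.congr_of_eventuallyEq ?_ rfl
    filter_upwards [h2, self_mem_nhdsWithin] with x hx hxT
    by_contra hne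
    exact absurd (hsep _ _ hxT.2 ht.2 (hA x hxT.1 hxT.2) (hA t ht.1 ht.2) hne) (not_le.2 hx)
  set F' := F.erase (g (γ s₀)) with hF'
  have key : ∀ w : F', ∃ ab : ℝ × ℝ, ab.1 < ab.2 ∧ ab.1 ∈ T ∧ ab.2 ∈ T ∧
      (∀ x, ab.1 < x → x < ab.2 → γ x ∉ K) ∧ g (γ ab.2) = w.1 ∧ g (γ ab.1) ≠ w.1 := by
    rintro ⟨w, hw⟩
    rw [hF', Finset.mem_erase] at hw
    obtain ⟨t, ht, htw⟩ := hF hw.2
    have c1 : IsClosed (T ∩ (fun t => g (γ t)) ⁻¹' {w}ᶜ) :=
      hcont.preimage_isClosed_of_isClosed hTc (isClosed_discrete _)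
    have c2 : IsClosed (T ∩ (fun t => g (γ t)) ⁻¹' {w}) :=
      hcont.preimage_isClosed_of_isClosed hTc (isClosed_discrete _)
    obtain ⟨a, b, ha, hb, hsa, hab, hbt, hx⟩ := gap c1 c2 (s := s₀) (t := t)
      ⟨hs₀.1, fun h => hw.1 (by simpa using h.symm)⟩ ⟨ht, by simpa using htw⟩ (hs₀.2 ht)
      (fun x hx hx' => hx.2 hx'.2)
    refine ⟨(a, b), hab, ha.1, hb.1, ?_, by simpa using hb.2, by simpa using ha.2⟩
    intro x hax hxb hxK
    have hxT : x ∈ T := ⟨⟨ha.1.1.1.trans hax.le, hxb.le.trans hb.1.1.2⟩, hxK⟩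
    obtain ⟨h1, h2⟩ := hx x hax hxb
    by_cases hgx : g (γ x) = w
    · exact h2 ⟨hxT, by simpa using hgx⟩
    · exact h1 ⟨hxT, by simpa using hgx⟩
  choose ab hab haT hbT habK hgb hga using key
  let J : F' → {J : Set ℝ // ∃ t ∈ outside K γ, J = connectedComponentIn (outside K γ) t} :=
    fun w => ⟨Ioo (ab w).1 (ab w).2, gap_comp (hab w) (hu.trans (haT w).1.1)
      ((hbT w).1.2.trans hv) (haT w).2 (hbT w).2 (habK w)⟩
  have hJinj : Function.Injective J := by
    intro w w' h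
    have h1 : Ioo (ab w).1 (ab w).2 = Ioo (ab w').1 (ab w').2 := congrArg Subtype.val h
    have h2 : (ab w).2 = (ab w').2 := by
      rw [← csSup_Ioo (hab w), ← csSup_Ioo (hab w'), h1]
    apply Subtype.ext
    rw [← hgb w, ← hgb w', h2]
  have h1 : ∑' w : F', eVariationOn γ (J w).1 ≤ excursionLength K γ :=
    ENNReal.tsum_comp_le_tsum_of_injective hJinj (fun J => eVariationOn γ J.1)
  have h2 : (F'.card : ℝ≥0∞) * ENNReal.ofReal δ ≤ ∑' w : F', eVariationOn γ (J w).1 := by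
    rw [tsum_fintype]
    calc (F'.card : ℝ≥0∞) * ENNReal.ofReal δ = ∑ _w : F', ENNReal.ofReal δ := by
          rw [Finset.sum_const, Finset.card_univ, Fintype.card_coe, nsmul_eq_mul]
      _ ≤ _ := by
          apply Finset.sum_le_sum
          intro w _
          refine le_trans ?_ (var_ge hγ (hu.trans (haT w).1.1) (hab w) ((hbT w).1.2.trans hv))
          rw [edist_dist]
          apply ENNReal.ofReal_le_ofReal
          apply hsep _ _ (haT w).2 (hbT w).2 (hA _ (haT w).1 (haT w).2) (hA _ (hbT w).1 (hbT w).2)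
          rw [hgb w]
          exact hga w
  have h3 : (F.card : ℝ≥0∞) ≤ F'.card + 1 := by
    have : F.card ≤ F'.card + 1 := by
      have : F.card - 1 ≤ F'.card := Finset.pred_card_le_card_erase
      omega
    exact_mod_cast this
  calc (F.card : ℝ≥0∞) * ENNReal.ofReal δ ≤ (F'.card + 1) * ENNReal.ofReal δ := by gcongr
    _ = F'.card * ENNReal.ofReal δ + ENNReal.ofReal δ := by ring
    _ ≤ _ := by gcongr; exact h2.trans h1

theorem null (hK : IsClosed K) (hγ : ContinuousOn γ (Icc 0 1)) (hL : excursionLength K γ ≠ ∞)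
    {u v : ℝ} (hu : 0 ≤ u)
    (hv : v ≤ 1) (A : Set E) (hA : ∀ t ∈ Icc u v, γ t ∈ K → γ t ∈ A) (P : E → ℝ)
    (g : ℕ → E → ℕ) (c C r : ℝ) (hc : 0 < c) (hC : 0 ≤ C) (hr : 1 / 3 < r) (hr1 : r ≤ 1)
    (hsep : ∀ m z z', z ∈ K → z' ∈ K → z ∈ A → z' ∈ A → g m z ≠ g m z' → c * r ^ m ≤ dist z z')
    (hgr : ∀ m z z', z ∈ K → z' ∈ K → z ∈ A → z' ∈ A → g m z = g m z' →
      |P z - P z'| ≤ C * (1 / 3) ^ m) :
    volume ((fun t => P (γ t)) '' {t | t ∈ Icc u v ∧ γ t ∈ K}) = 0 := by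
  classical
  set T := {t | t ∈ Icc u v ∧ γ t ∈ K} with hT
  have hr0 : 0 < r := by linarith
  set L := excursionLength K γ with hLdef
  set M : ℝ≥0∞ := (L + ENNReal.ofReal c) * ENNReal.ofReal (C / c) with hM
  have hMtop : M ≠ ∞ :=
    ENNReal.mul_ne_top (ENNReal.add_ne_top.2 ⟨hL, ENNReal.ofReal_ne_top⟩) ENNReal.ofReal_ne_top
  have key : ∀ m : ℕ, volume ((fun t => P (γ t)) '' T) ≤ M * (ENNReal.ofReal (1 / (3 * r))) ^ m := by
    intro m
    have hδ : 0 < c * r ^ m := by positivity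
    have hcount := count hK hγ hu hv A hA (g m) (c * r ^ m) hδ (hsep m)
    rw [← hT, ← hLdef] at hcount
    -- finitely many groups
    have hfin : ((fun t => g m (γ t)) '' T).Finite := by
      by_contra hinf
      have hinf' : ((fun t => g m (γ t)) '' T).Infinite := hinf
      have htop : ∀ N : ℕ, (N : ℝ≥0∞) * ENNReal.ofReal (c * r ^ m) ≤
          L + ENNReal.ofReal (c * r ^ m) := by
        intro N
        obtain ⟨F, hF, hFc⟩ := hinf'.exists_subset_card_eq N
        rw [← hFc]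
        exact hcount F hF
      have hne : ENNReal.ofReal (c * r ^ m) ≠ 0 := by
        rw [Ne, ENNReal.ofReal_eq_zero, not_le]; exact hδ
      obtain ⟨N, hN⟩ := ENNReal.exists_nat_mul_gt hne
        (ENNReal.add_ne_top.2 ⟨hL, ENNReal.ofReal_ne_top (r := c * r ^ m)⟩)
      exact absurd (htop N) (not_le.2 hN)
    set F := hfin.toFinset with hF
    have hcard := hcount F (by rw [hF, Set.Finite.coe_toFinset])
    have hcover : (fun t => P (γ t)) '' T ⊆
        ⋃ w ∈ F, (fun t => P (γ t)) '' {t | t ∈ T ∧ g m (γ t) = w} := by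
      rintro _ ⟨t, ht, rfl⟩
      simp only [mem_iUnion]
      refine ⟨g m (γ t), ?_, t, ⟨ht, rfl⟩, rfl⟩
      rw [hF, Set.Finite.mem_toFinset]
      exact ⟨t, ht, rfl⟩
    have hpiece : ∀ w ∈ F, volume ((fun t => P (γ t)) '' {t | t ∈ T ∧ g m (γ t) = w}) ≤
        ENNReal.ofReal (C * (1 / 3) ^ m) := by
      intro w _
      refine (Real.volume_le_diam _).trans ?_
      apply Metric.ediam_le
      rintro _ ⟨t, ⟨ht, htw⟩, rfl⟩ _ ⟨t', ⟨ht', htw'⟩, rfl⟩
      rw [edist_dist, Real.dist_eq]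
      apply ENNReal.ofReal_le_ofReal
      exact hgr m _ _ ht.2 ht'.2 (hA t ht.1 ht.2) (hA t' ht'.1 ht'.2) (htw.trans htw'.symm)
    have h1 : volume ((fun t => P (γ t)) '' T) ≤ F.card * ENNReal.ofReal (C * (1 / 3) ^ m) := by
      calc volume ((fun t => P (γ t)) '' T) ≤ volume (⋃ w ∈ F, (fun t => P (γ t)) ''
            {t | t ∈ T ∧ g m (γ t) = w}) := measure_mono hcover
        _ ≤ ∑ w ∈ F, volume ((fun t => P (γ t)) '' {t | t ∈ T ∧ g m (γ t) = w}) :=
            measure_biUnion_finset_le _ _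
        _ ≤ ∑ _w ∈ F, ENNReal.ofReal (C * (1 / 3) ^ m) := Finset.sum_le_sum hpiece
        _ = _ := by rw [Finset.sum_const, nsmul_eq_mul]
    have h2 : ENNReal.ofReal (C * (1 / 3) ^ m) = ENNReal.ofReal (c * r ^ m) *
        (ENNReal.ofReal (C / c) * ENNReal.ofReal (1 / (3 * r)) ^ m) := by
      rw [← ENNReal.ofReal_pow (by positivity), ← ENNReal.ofReal_mul (by positivity),
        ← ENNReal.ofReal_mul (by positivity)]
      congr 1
      rw [div_pow, div_pow, mul_pow]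
      field_simp
    rw [h2, ← mul_assoc] at h1
    refine h1.trans ?_
    have h3 : ENNReal.ofReal (c * r ^ m) ≤ ENNReal.ofReal c := by
      apply ENNReal.ofReal_le_ofReal
      have : r ^ m ≤ 1 := pow_le_one₀ hr0.le hr1
      nlinarith
    calc (F.card : ℝ≥0∞) * ENNReal.ofReal (c * r ^ m) *
          (ENNReal.ofReal (C / c) * ENNReal.ofReal (1 / (3 * r)) ^ m)
        ≤ (L + ENNReal.ofReal (c * r ^ m)) *
          (ENNReal.ofReal (C / c) * ENNReal.ofReal (1 / (3 * r)) ^ m) := by gcongr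
      _ ≤ (L + ENNReal.ofReal c) *
          (ENNReal.ofReal (C / c) * ENNReal.ofReal (1 / (3 * r)) ^ m) := by gcongr
      _ = M * ENNReal.ofReal (1 / (3 * r)) ^ m := by rw [hM, mul_assoc]
  have hlim : Tendsto (fun m : ℕ => M * (ENNReal.ofReal (1 / (3 * r))) ^ m) atTop (𝓝 0) := by
    have h1 : ENNReal.ofReal (1 / (3 * r)) < 1 := by
      rw [ENNReal.ofReal_lt_one, div_lt_one (by positivity)]
      linarith
    have h2 := ENNReal.Tendsto.const_mul (a := M)
      (ENNReal.tendsto_pow_atTop_nhds_zero_of_lt_one h1) (Or.inr hMtop)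
    simpa using h2
  exact le_antisymm (ge_of_tendsto' hlim key) zero_le

/-- **Abstract lower bound for the length outside of `K`.** -/
theorem lower_bound (hK : IsClosed K) (A : Bool → Set E) (hAo : ∀ e, IsOpen (A e))
    (hKA : ∀ z ∈ K, ∃ e, z ∈ A e) (P : E → ℝ)
    (g : Bool → ℕ → E → ℕ) (c C r κ : ℝ) (hc : 0 < c) (hC : 0 ≤ C) (hr : 1 / 3 < r) (hr1 : r ≤ 1)
    (hκ : 0 ≤ κ)
    (hsep : ∀ e m z z', z ∈ K → z' ∈ K → z ∈ A e → z' ∈ A e → g e m z ≠ g e m z' →
      c * r ^ m ≤ dist z z')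
    (hgr : ∀ e m z z', z ∈ K → z' ∈ K → z ∈ A e → z' ∈ A e → g e m z = g e m z' →
      |P z - P z'| ≤ C * (1 / 3) ^ m)
    (hLip : ∀ z z', z ∈ K → z' ∈ K → |P z - P z'| ≤ κ * dist z z')
    (hγ : ContinuousOn γ (Icc 0 1)) (h0 : γ 0 ∈ K) (h1 : γ 1 ∈ K) :
    ENNReal.ofReal (P (γ 1) - P (γ 0)) ≤ ENNReal.ofReal κ * excursionLength K γ := by
  classical
  by_cases hL : excursionLength K γ = ∞
  · by_cases hκ0 : κ = 0
    · have h2 := hLip _ _ h1 h0
      rw [hκ0, zero_mul] at h2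
      have : P (γ 1) - P (γ 0) = 0 := abs_nonpos_iff.1 h2
      rw [this]; simp
    · rw [hL, ENNReal.mul_top]
      · exact le_top
      · rw [Ne, ENNReal.ofReal_eq_zero, not_le]
        exact lt_of_le_of_ne hκ (Ne.symm hκ0)
  set T := {t | t ∈ Icc (0 : ℝ) 1 ∧ γ t ∈ K} with hT
  have hTc : IsClosed T := closed_times hK hγ le_rfl le_rfl
  -- the image of the times in `K` is a null set
  have hnull : volume ((fun t => P (γ t)) '' T) = 0 := by
    have hcov : (fun t => P (γ t)) '' T ⊆ ⋃ q : {q : ℚ × ℚ // 0 ≤ (q.1 : ℝ) ∧ (q.2 : ℝ) ≤ 1 ∧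
        ∃ e, ∀ t ∈ Icc (q.1 : ℝ) q.2, γ t ∈ K → γ t ∈ A e},
        (fun t => P (γ t)) '' {t | t ∈ Icc (q.1.1 : ℝ) q.1.2 ∧ γ t ∈ K} := by
      rintro _ ⟨t, ht, rfl⟩
      obtain ⟨e, he⟩ := hKA _ ht.2
      have h2 : ∀ᶠ x in 𝓝[Icc 0 1] t, γ x ∈ A e :=
        (hγ t ht.1).eventually ((hAo e).mem_nhds he)
      rw [eventually_nhdsWithin_iff, Metric.eventually_nhds_iff] at h2
      obtain ⟨ε, hε, h3⟩ := h2
      have hq1 : ∃ q : ℚ, 0 ≤ (q : ℝ) ∧ (q : ℝ) ≤ t ∧ t - ε < q := by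
        rcases eq_or_lt_of_le ht.1.1 with h | h
        · exact ⟨0, by simp, by simpa using h.le, by simp; linarith⟩
        · obtain ⟨q, hq, hq'⟩ := exists_rat_btwn (show max 0 (t - ε) < t from
            max_lt h (by linarith))
          exact ⟨q, (le_max_left _ _).trans hq.le, hq'.le, lt_of_le_of_lt (le_max_right _ _) hq⟩
      have hq2 : ∃ q : ℚ, (q : ℝ) ≤ 1 ∧ t ≤ (q : ℝ) ∧ (q : ℝ) < t + ε := by
        rcases eq_or_lt_of_le ht.1.2 with h | h
        · exact ⟨1, by simp, by simpa using h.le, by simp; linarith⟩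
        · obtain ⟨q, hq, hq'⟩ := exists_rat_btwn (show t < min 1 (t + ε) from
            lt_min h (by linarith))
          exact ⟨q, hq'.le.trans (min_le_left _ _), hq.le, lt_of_lt_of_le hq' (min_le_right _ _)⟩
      obtain ⟨q1, ha1, ha2, ha3⟩ := hq1
      obtain ⟨q2, hb1, hb2, hb3⟩ := hq2
      refine mem_iUnion.2 ⟨⟨(q1, q2), ha1, hb1, e, ?_⟩, t, ⟨⟨ha2, hb2⟩, ht.2⟩, rfl⟩
      intro x hx _
      apply h3
      · rw [Real.dist_eq, abs_lt]
        exact ⟨by linarith [hx.1], by linarith [hx.2]⟩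
      · exact ⟨ha1.trans hx.1, hx.2.trans hb1⟩
    refine measure_mono_null hcov (measure_iUnion_null ?_)
    rintro ⟨⟨q1, q2⟩, ha, hb, e, he⟩
    exact null hK hγ hL ha hb (A e) he P (g e) c C r hc hC hr hr1 (hsep e) (hgr e)
  -- continuity of `P ∘ γ` on `T`
  have hPc : ContinuousOn (fun t => P (γ t)) T := by
    intro t ht
    have h2 : ContinuousWithinAt γ T t := (hγ t ht.1).mono (fun x hx => hx.1)
    rw [ContinuousWithinAt, tendsto_iff_dist_tendsto_zero] at h2 ⊢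
    have h3 : Tendsto (fun x => κ * dist (γ x) (γ t)) (𝓝[T] t) (𝓝 0) := by
      simpa using h2.const_mul κ
    refine squeeze_zero' (Eventually.of_forall fun _ => dist_nonneg) ?_ h3
    filter_upwards [self_mem_nhdsWithin] with x hx
    rw [Real.dist_eq]
    exact hLip _ _ hx.2 ht.2
  let I := {J : Set ℝ // ∃ t ∈ outside K γ, J = connectedComponentIn (outside K γ) t}
  -- the outside is open
  have hUo : IsOpen (outside K γ) := by
    have h2 : outside K γ = Ioo 0 1 ∩ γ ⁻¹' Kᶜ := by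
      ext t
      constructor
      · rintro ⟨ht, htK⟩
        refine ⟨⟨lt_of_le_of_ne ht.1 ?_, lt_of_le_of_ne ht.2 ?_⟩, htK⟩
        · rintro rfl; exact htK h0
        · rintro rfl; exact htK h1
      · rintro ⟨ht, htK⟩
        exact ⟨Ioo_subset_Icc_self ht, htK⟩
    rw [h2]
    exact (hγ.mono Ioo_subset_Icc_self).isOpen_inter_preimage isOpen_Ioo hK.isOpen_compl
  have hcount : Countable I := by
    have hq : ∀ J : I, ∃ q : ℚ, (q : ℝ) ∈ J.1 := by
      rintro ⟨J, t, ht, rfl⟩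
      obtain ⟨q, hq⟩ := (Rat.denseRange_cast (𝕜 := ℝ)).exists_mem_open
        (hUo.connectedComponentIn (x := t)) ⟨t, mem_connectedComponentIn ht⟩
      exact ⟨q, hq⟩
    choose q hq using hq
    apply Function.Injective.countable (f := q)
    rintro ⟨J, t, ht, rfl⟩ ⟨J', t', ht', rfl⟩ h
    have e1 := connectedComponentIn_eq (hq ⟨_, t, ht, rfl⟩)
    have e2 := connectedComponentIn_eq (hq ⟨_, t', ht', rfl⟩)
    apply Subtype.ext
    show connectedComponentIn (outside K γ) t = connectedComponentIn (outside K γ) t'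
    rw [e1, e2, h]
  let f : I → Set ℝ := fun J => {x | ∃ a b, J.1 = Ioo a b ∧ a < b ∧ a ∈ T ∧ b ∈ T ∧
    x ∈ Icc (P (γ a)) (P (γ b))}
  have hf : ∀ J : I, volume (f J) ≤ ENNReal.ofReal κ * eVariationOn γ J.1 := by
    intro J
    by_cases hJ : ∃ a b, J.1 = Ioo a b ∧ a < b ∧ a ∈ T ∧ b ∈ T
    · obtain ⟨a, b, hJab, hab, ha, hb⟩ := hJ
      have hsub : f J ⊆ Icc (P (γ a)) (P (γ b)) := by
        rintro x ⟨a', b', hJab', hab', -, -, hx⟩
        rw [hJab] at hJab'
        have e1 : a = a' := by rw [← csInf_Ioo hab, ← csInf_Ioo hab', hJab']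
        have e2 : b = b' := by rw [← csSup_Ioo hab, ← csSup_Ioo hab', hJab']
        rw [e1, e2]; exact hx
      refine (measure_mono hsub).trans ?_
      rw [Real.volume_Icc, hJab]
      calc ENNReal.ofReal (P (γ b) - P (γ a)) ≤ ENNReal.ofReal (κ * dist (γ a) (γ b)) := by
            apply ENNReal.ofReal_le_ofReal
            have := hLip _ _ hb.2 ha.2
            rw [dist_comm]
            exact (le_abs_self _).trans this
        _ = ENNReal.ofReal κ * edist (γ a) (γ b) := by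
            rw [ENNReal.ofReal_mul hκ, edist_dist]
        _ ≤ _ := by
            gcongr
            exact var_ge hγ ha.1.1 hab hb.1.2
    · have : f J = ∅ := by
        ext x
        simp only [mem_empty_iff_false, iff_false]
        rintro ⟨a, b, h2, h3, h4, h5, -⟩
        exact hJ ⟨a, b, h2, h3, h4, h5⟩
      rw [this]; simp
  have hcov : Ioo (P (γ 0)) (P (γ 1)) ⊆ ((fun t => P (γ t)) '' T) ∪ ⋃ J : I, f J := by
    intro x hx
    by_cases hxT : x ∈ (fun t => P (γ t)) '' T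
    · exact Or.inl hxT
    right
    have c1 : IsClosed (T ∩ (fun t => P (γ t)) ⁻¹' Iic x) :=
      hPc.preimage_isClosed_of_isClosed hTc isClosed_Iic
    have c2 : IsClosed (T ∩ (fun t => P (γ t)) ⁻¹' Ici x) :=
      hPc.preimage_isClosed_of_isClosed hTc isClosed_Ici
    obtain ⟨a, b, ha, hb, ha0, hab, hb1, hgap⟩ := gap c1 c2 (s := 0) (t := 1)
      ⟨⟨⟨le_rfl, zero_le_one⟩, h0⟩, hx.1.le⟩ ⟨⟨⟨zero_le_one, le_rfl⟩, h1⟩, hx.2.le⟩ zero_le_one
      (fun y hy hy' => hxT ⟨y, hy.1, le_antisymm hy.2 hy'.2⟩)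
    have hout : ∀ y, a < y → y < b → γ y ∉ K := by
      intro y hay hyb hyK
      have hyT : y ∈ T := ⟨⟨ha0.trans hay.le, hyb.le.trans hb1⟩, hyK⟩
      obtain ⟨h2, h3⟩ := hgap y hay hyb
      rcases le_total (P (γ y)) x with h | h
      · exact h2 ⟨hyT, h⟩
      · exact h3 ⟨hyT, h⟩
    refine mem_iUnion.2 ⟨⟨Ioo a b, gap_comp hab ha0 hb1 ha.1.2 hb.1.2 hout⟩, a, b, rfl, hab,
      ha.1, hb.1, ha.2, hb.2⟩
  calc ENNReal.ofReal (P (γ 1) - P (γ 0)) = volume (Ioo (P (γ 0)) (P (γ 1))) := by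
        rw [Real.volume_Ioo]
    _ ≤ volume (((fun t => P (γ t)) '' T) ∪ ⋃ J : I, f J) := measure_mono hcov
    _ ≤ volume ((fun t => P (γ t)) '' T) + volume (⋃ J : I, f J) := measure_union_le _ _
    _ = volume (⋃ J : I, f J) := by rw [hnull, zero_add]
    _ ≤ ∑' J : I, volume (f J) := measure_iUnion_le _
    _ ≤ ∑' J : I, ENNReal.ofReal κ * eVariationOn γ J.1 := ENNReal.tsum_le_tsum hf
    _ = ENNReal.ofReal κ * excursionLength K γ := by rw [ENNReal.tsum_mul_left]; rfl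

end

end Pool.Agent.R674.EX
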