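import Mathlib

/-!
# Digit functions on the Cantor space `ℕ → Fin 3`
-/

open Set Filter Topology

namespace Pool.Agent.R674.EX

/-- ternary sequences -/
abbrev Sg := ℕ → Fin 3

/-- digit series -/
noncomputable def SS (φ : Fin 3 → ℝ) (ρ : ℝ) (s : Sg) : ℝ := ∑' i, φ (s i) * ρ ^ i

/-- admissible parameters -/
structure Ok (φ : Fin 3 → ℝ) (ρ : ℝ) : Prop where
  h0 : 0 < ρ
  h1 : ρ < 1
  p0 : ∀ d, 0 ≤ φ d
  p1 : ∀ d, φ d ≤ 1 - ρ

variable {φ : Fin 3 → ℝ} {ρ : ℝ}

theorem SS_term_le (h : Ok φ ρ) (s : Sg) (i : ℕ) : φ (s i) * ρ ^ i ≤ (1 - ρ) * ρ ^ i :=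
  mul_le_mul_of_nonneg_right (h.p1 _) (pow_nonneg h.h0.le _)

theorem geo_summable (h : Ok φ ρ) : Summable (fun i : ℕ => (1 - ρ) * ρ ^ i) :=
  (summable_geometric_of_lt_one h.h0.le h.h1).mul_left _

theorem SS_summable (h : Ok φ ρ) (s : Sg) : Summable (fun i => φ (s i) * ρ ^ i) :=
  Summable.of_nonneg_of_le (fun _ => mul_nonneg (h.p0 _) (pow_nonneg h.h0.le _))
    (SS_term_le h s) (geo_summable h)

theorem SS_nonneg (h : Ok φ ρ) (s : Sg) : 0 ≤ SS φ ρ s :=
  tsum_nonneg (fun _ => mul_nonneg (h.p0 _) (pow_nonneg h.h0.le _))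

theorem SS_le_one (h : Ok φ ρ) (s : Sg) : SS φ ρ s ≤ 1 := by
  have h1 : SS φ ρ s ≤ ∑' i : ℕ, (1 - ρ) * ρ ^ i :=
    (SS_summable h s).tsum_le_tsum (SS_term_le h s) (geo_summable h)
  rw [tsum_mul_left, tsum_geometric_of_lt_one h.h0.le h.h1, mul_inv_cancel₀] at h1
  · exact h1
  · have := h.h1; intro h0; linarith

theorem SS_split (h : Ok φ ρ) (s : Sg) (n : ℕ) :
    SS φ ρ s = ∑ i ∈ Finset.range n, φ (s i) * ρ ^ i + ρ ^ n * SS φ ρ (fun i => s (i + n)) := by
  unfold SS
  rw [← (SS_summable h s).sum_add_tsum_nat_add n, ← tsum_mul_left]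
  congr 1
  apply tsum_congr
  intro i
  rw [pow_add]; ring

theorem SS_sub (h : Ok φ ρ) {s s' : Sg} {i : ℕ} (hag : ∀ j < i, s j = s' j) :
    SS φ ρ s - SS φ ρ s' = ρ ^ i * (φ (s i) - φ (s' i)) +
      ρ ^ (i + 1) * (SS φ ρ (fun j => s (j + (i + 1))) - SS φ ρ (fun j => s' (j + (i + 1)))) := by
  rw [SS_split h s (i + 1), SS_split h s' (i + 1), Finset.sum_range_succ, Finset.sum_range_succ]
  have : ∑ j ∈ Finset.range i, φ (s j) * ρ ^ j = ∑ j ∈ Finset.range i, φ (s' j) * ρ ^ j := by
    apply Finset.sum_congr rfl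
    intro j hj
    rw [hag j (Finset.mem_range.1 hj)]
  rw [this]; ring

theorem SS_close (h : Ok φ ρ) {s s' : Sg} {i : ℕ} (hag : ∀ j < i, s j = s' j) :
    |SS φ ρ s - SS φ ρ s'| ≤ ρ ^ i := by
  rw [SS_split h s i, SS_split h s' i]
  have : ∑ j ∈ Finset.range i, φ (s j) * ρ ^ j = ∑ j ∈ Finset.range i, φ (s' j) * ρ ^ j := by
    apply Finset.sum_congr rfl
    intro j hj
    rw [hag j (Finset.mem_range.1 hj)]
  rw [this]
  have h1 := SS_nonneg h (fun j => s (j + i))
  have h2 := SS_le_one h (fun j => s (j + i))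
  have h3 := SS_nonneg h (fun j => s' (j + i))
  have h4 := SS_le_one h (fun j => s' (j + i))
  have h5 : 0 < ρ ^ i := pow_pos h.h0 _
  rw [abs_le]
  constructor <;> nlinarith

theorem SS_continuous (h : Ok φ ρ) : Continuous (SS φ ρ) := by
  apply continuous_tsum (u := fun i => (1 - ρ) * ρ ^ i)
  · intro i
    apply Continuous.mul _ continuous_const
    exact (continuous_of_discreteTopology (f := φ)).comp (continuous_apply i)
  · exact geo_summable h
  · intro i s
    rw [Real.norm_eq_abs, abs_of_nonneg (mul_nonneg (h.p0 _) (pow_nonneg h.h0.le _))]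
    exact SS_term_le h s i

theorem SS_const (h : Ok φ ρ) {d : Fin 3} (hd : φ d = 1 - ρ) {s : Sg} (hs : ∀ i, s i = d) :
    SS φ ρ s = 1 := by
  unfold SS
  have : (fun i => φ (s i) * ρ ^ i) = fun i => (1 - ρ) * ρ ^ i := by
    funext i; rw [hs i, hd]
  rw [this, tsum_mul_left, tsum_geometric_of_lt_one h.h0.le h.h1, mul_inv_cancel₀]
  have := h.h1; intro h0; linarith

theorem SS_zero {d : Fin 3} (hd : φ d = 0) {s : Sg} (hs : ∀ i, s i = d) :
    SS φ ρ s = 0 := by
  unfold SS
  have : (fun i => φ (s i) * ρ ^ i) = fun _ => 0 := by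
    funext i; rw [hs i, hd, zero_mul]
  rw [this, tsum_zero]

/-- weights of the two planar coordinates -/
noncomputable def ph (a : Fin 3) (d : Fin 3) : ℝ := if d = a then 3 / 5 else 0

theorem ok_ph (a : Fin 3) : Ok (ph a) (2 / 5) := by
  refine ⟨by norm_num, by norm_num, ?_, ?_⟩
  · intro d; unfold ph; split_ifs <;> norm_num
  · intro d; unfold ph; split_ifs <;> norm_num

/-- planar coordinate `a` (`a = 1, 2`) -/
noncomputable def cc (a : Fin 3) (s : Sg) : ℝ := SS (ph a) (2 / 5) s

/-- weights of the parameter -/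
noncomputable def pw (d : Fin 3) : ℝ := (d.val : ℝ) / 3

theorem ok_pw : Ok pw (1 / 3) := by
  refine ⟨by norm_num, by norm_num, ?_, ?_⟩
  · intro d; unfold pw; positivity
  · intro d; unfold pw
    have : (d.val : ℝ) ≤ 2 := by exact_mod_cast (by omega : d.val ≤ 2)
    linarith

/-- the ternary number with digits `s` -/
noncomputable def PP (s : Sg) : ℝ := SS pw (1 / 3) s

/-- the integer with the first `m` digits of `s` -/
def idx : ℕ → Sg → ℕ
  | 0, _ => 0
  | m + 1, s => 3 * idx m s + (s m).val

theorem PP_idx (s : Sg) (m : ℕ) :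
    PP s = ((idx m s : ℝ) + PP (fun i => s (i + m))) * (1 / 3) ^ m := by
  unfold PP
  rw [SS_split ok_pw s m]
  have : ∑ i ∈ Finset.range m, pw (s i) * (1 / 3) ^ i = (idx m s : ℝ) * (1 / 3) ^ m := by
    induction m with
    | zero => simp [idx]
    | succ m ih =>
      rw [Finset.sum_range_succ, ih]
      simp only [idx, pw]
      push_cast
      rw [pow_succ]; ring
  rw [this]; ring

theorem idx_congr {s s' : Sg} {m : ℕ} (h : ∀ j < m, s j = s' j) : idx m s = idx m s' := by
  induction m with
  | zero => rfl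
  | succ m ih =>
    simp only [idx]
    rw [ih (fun j hj => h j (by omega)), h m (by omega)]

theorem idx_inj {s s' : Sg} {m : ℕ} (h : idx m s = idx m s') : ∀ j < m, s j = s' j := by
  induction m with
  | zero => intro j hj; omega
  | succ m ih =>
    simp only [idx] at h
    have h1 : (s m).val < 3 := (s m).2
    have h2 : (s' m).val < 3 := (s' m).2
    have h3 : idx m s = idx m s' := by omega
    have h4 : (s m).val = (s' m).val := by omega
    intro j hj
    rcases Nat.lt_succ_iff_lt_or_eq.1 hj with h5 | rfl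
    · exact ih h3 j h5
    · exact Fin.ext h4

/-- the group of `s` at level `m`, at the side `e` -/
def gr (e m : ℕ) (s : Sg) : ℕ := (idx m s + e) / 2

theorem PP_gr {e m : ℕ} {s s' : Sg} (h : gr e m s = gr e m s') :
    |PP s - PP s'| ≤ 2 * (1 / 3) ^ m := by
  have h1 : |(idx m s : ℝ) - idx m s'| ≤ 1 := by
    unfold gr at h
    have h2 : idx m s ≤ idx m s' + 1 := by omega
    have h3 : idx m s' ≤ idx m s + 1 := by omega
    have h2' : (idx m s : ℝ) ≤ idx m s' + 1 := by exact_mod_cast h2
    have h3' : (idx m s' : ℝ) ≤ idx m s + 1 := by exact_mod_cast h3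
    rw [abs_le]; constructor <;> linarith
  rw [PP_idx s m, PP_idx s' m, ← sub_mul, abs_mul, abs_of_pos (show (0 : ℝ) < (1 / 3) ^ m by
    positivity)]
  apply mul_le_mul_of_nonneg_right _ (by positivity)
  have h2 := SS_nonneg ok_pw (fun i => s (i + m))
  have h3 := SS_le_one ok_pw (fun i => s (i + m))
  have h4 := SS_nonneg ok_pw (fun i => s' (i + m))
  have h5 := SS_le_one ok_pw (fun i => s' (i + m))
  rw [abs_le] at h1 ⊢
  unfold PP
  constructor <;> linarith [h1.1, h1.2]

/-- `s = w a 2 2 2 …` and `t = w (a+1) 0 0 0 …`, where `w` has length `k` -/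
structure Adj (k : ℕ) (s t : Sg) : Prop where
  pre : ∀ i < k, s i = t i
  dig : (t k).val = (s k).val + 1
  two : ∀ i, k < i → s i = 2
  zero : ∀ i, k < i → t i = 0

/-- the pair is at the side `e` -/
def Side (e k : ℕ) (s : Sg) : Prop := Even (idx (k + 1) s + e)

theorem Adj.idx_s {e k m : ℕ} {s t : Sg} (h : Adj k s t) (he : Side e k s) (hm : k < m) :
    Even (idx m s + e) := by
  induction m with
  | zero => omega
  | succ m ih =>
    rcases Nat.lt_succ_iff_lt_or_eq.1 hm with h1 | rfl
    · have h2 := ih h1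
      simp only [idx]
      rw [h.two m h1]
      have : 3 * idx m s + (2 : Fin 3).val + e = (idx m s + e) + 2 * (idx m s + 1) := by
        have : (2 : Fin 3).val = 2 := rfl
        omega
      rw [this]
      exact h2.add (even_two_mul _)
    · exact he

theorem Adj.idx_t {k m : ℕ} {s t : Sg} (h : Adj k s t) (hm : k < m) :
    idx m t = idx m s + 1 := by
  induction m with
  | zero => omega
  | succ m ih =>
    rcases Nat.lt_succ_iff_lt_or_eq.1 hm with h1 | rfl
    · simp only [idx]
      rw [h.two m h1, h.zero m h1, ih h1]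
      have : (2 : Fin 3).val = 2 := rfl
      have : (0 : Fin 3).val = 0 := rfl
      omega
    · simp only [idx]
      rw [idx_congr h.pre, h.dig]
      ring

theorem Adj.gr_eq {e k : ℕ} {s t : Sg} (h : Adj k s t) (he : Side e k s) (m : ℕ) :
    gr e m s = gr e m t := by
  unfold gr
  rcases Nat.lt_or_ge k m with h1 | h1
  · obtain ⟨x, hx⟩ := h.idx_s he h1
    rw [h.idx_t h1]
    omega
  · rw [idx_congr (fun j hj => h.pre j (by omega))]

theorem Adj.PP_eq {k : ℕ} {s t : Sg} (h : Adj k s t) : PP s = PP t := by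
  rw [PP_idx s (k + 1), PP_idx t (k + 1), h.idx_t (Nat.lt_succ_self k)]
  have h1 : PP (fun i => s (i + (k + 1))) = 1 :=
    SS_const ok_pw (d := 2) (by unfold pw; norm_num) (fun i => h.two _ (by omega))
  have h2 : PP (fun i => t (i + (k + 1))) = 0 :=
    SS_zero (d := 0) (by unfold pw; norm_num) (fun i => h.zero _ (by omega))
  rw [h1, h2]; push_cast; ring

/-- two sequences with the same value are equal or adjacent -/
theorem PP_inj {s s' : Sg} (h : PP s = PP s') : s = s' ∨ ∃ k, Adj k s s' ∨ Adj k s' s := by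
  by_cases hss : s = s'
  · exact Or.inl hss
  right
  have hex : ∃ i, s i ≠ s' i := by
    by_contra hcon
    push Not at hcon
    exact hss (funext hcon)
  classical
  set k := Nat.find hex with hk
  have hne : s k ≠ s' k := Nat.find_spec hex
  have hlt : ∀ j < k, s j = s' j := fun j hj => by
    by_contra hcon
    exact Nat.find_min hex hj hcon
  have key : ∀ u v : Sg, PP u = PP v → (∀ j < k, u j = v j) → (u k).val < (v k).val →
      Adj k u v := by
    intro u v huv hag hlt'
    have h1 := SS_sub ok_pw hag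
    have h0 : SS pw (1 / 3) u - SS pw (1 / 3) v = 0 := sub_eq_zero.2 huv
    rw [h0] at h1
    have hu1 := SS_nonneg ok_pw (fun j => u (j + (k + 1)))
    have hu2 := SS_le_one ok_pw (fun j => u (j + (k + 1)))
    have hv1 := SS_nonneg ok_pw (fun j => v (j + (k + 1)))
    have hv2 := SS_le_one ok_pw (fun j => v (j + (k + 1)))
    have hp : (0 : ℝ) < (1 / 3) ^ k := by positivity
    have h2 : pw (u k) - pw (v k) + 1 / 3 * (SS pw (1 / 3) (fun j => u (j + (k + 1))) -
        SS pw (1 / 3) (fun j => v (j + (k + 1)))) = 0 := by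
      rw [pow_succ] at h1
      have : (1 / 3 : ℝ) ^ k * (pw (u k) - pw (v k) + 1 / 3 *
        (SS pw (1 / 3) (fun j => u (j + (k + 1))) -
        SS pw (1 / 3) (fun j => v (j + (k + 1))))) = 0 := by rw [h1]; ring
      rcases mul_eq_zero.1 this with h3 | h3
      · exact absurd h3 hp.ne'
      · exact h3
    have hd : ((u k).val : ℝ) + 1 ≤ (v k).val := by exact_mod_cast hlt'
    have q1 : pw (u k) = ((u k).val : ℝ) / 3 := rfl
    have q2 : pw (v k) = ((v k).val : ℝ) / 3 := rfl
    rw [q1, q2] at h2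
    have hd' : (v k).val = (u k).val + 1 := by
      have : ((v k).val : ℝ) < (u k).val + 2 := by
        by_contra hcon
        push Not at hcon
        linarith
      have : (v k).val < (u k).val + 2 := by exact_mod_cast this
      omega
    rw [hd'] at h2
    push_cast at h2
    have hU : SS pw (1 / 3) (fun j => u (j + (k + 1))) = 1 := by linarith
    have hV : SS pw (1 / 3) (fun j => v (j + (k + 1))) = 0 := by linarith
    -- all digits of the tails are extreme
    have hz : ∀ w : Sg, SS pw (1 / 3) w = 0 → ∀ i, w i = 0 := by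
      intro w hw i
      have hsp := SS_split ok_pw w (i + 1)
      rw [hw, Finset.sum_range_succ] at hsp
      have h4 : 0 ≤ ∑ j ∈ Finset.range i, pw (w j) * (1 / 3) ^ j :=
        Finset.sum_nonneg (fun j _ => mul_nonneg (ok_pw.p0 _) (by positivity))
      have h5 := SS_nonneg ok_pw (fun j => w (j + (i + 1)))
      have h6 : (0 : ℝ) < (1 / 3) ^ i := by positivity
      have h7 : (0 : ℝ) < (1 / 3) ^ (i + 1) := by positivity
      have h8 : 0 ≤ (1 / 3 : ℝ) ^ (i + 1) * SS pw (1 / 3) (fun j => w (j + (i + 1))) := by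
        positivity
      have h9 : pw (w i) * (1 / 3) ^ i ≤ 0 := by linarith
      have h10 : pw (w i) ≤ 0 := by
        by_contra hcon
        push Not at hcon
        have := mul_pos hcon h6
        linarith
      unfold pw at h10
      have h11 : ((w i).val : ℝ) ≤ 0 := by linarith
      have h12 : (w i).val = 0 := by
        have : (w i).val ≤ 0 := by exact_mod_cast h11
        omega
      exact Fin.ext h12
    have ho : ∀ w : Sg, SS pw (1 / 3) w = 1 → ∀ i, w i = 2 := by
      intro w hw i
      have hrev : SS pw (1 / 3) (fun j => (w j).rev) = 0 := by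
        have h4 : SS pw (1 / 3) w + SS pw (1 / 3) (fun j => (w j).rev) = 1 := by
          unfold SS
          rw [← (SS_summable ok_pw w).tsum_add (SS_summable ok_pw (fun j => (w j).rev))]
          have : (fun i => pw (w i) * (1 / 3 : ℝ) ^ i + pw ((w i).rev) * (1 / 3) ^ i) =
              fun i => (1 - 1 / 3) * (1 / 3 : ℝ) ^ i := by
            funext i
            rw [← add_mul]
            congr 1
            unfold pw
            have : ((w i).rev.val : ℝ) = 2 - (w i).val := by
              have h5 : (w i).rev.val = 2 - (w i).val := by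
                rw [Fin.val_rev]; omega
              rw [h5, Nat.cast_sub (by omega)]; norm_num
            rw [this]; ring
          rw [this, tsum_mul_left, tsum_geometric_of_lt_one (by norm_num) (by norm_num)]
          norm_num
        linarith
      have h5 := hz _ hrev i
      have h6 : (w i).rev = 0 := h5
      have h7 : w i = (0 : Fin 3).rev := by rw [← h6, Fin.rev_rev]
      rw [h7]; rfl
    refine ⟨hag, hd', ?_, ?_⟩
    · intro i hi
      have := ho _ hU (i - (k + 1))
      rwa [show i - (k + 1) + (k + 1) = i by omega] at this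
    · intro i hi
      have := hz _ hV (i - (k + 1))
      rwa [show i - (k + 1) + (k + 1) = i by omega] at this
  rcases lt_or_gt_of_ne (fun h' => hne (Fin.ext h')) with h1 | h1
  · exact ⟨k, Or.inl (key s s' h hlt h1)⟩
  · exact ⟨k, Or.inr (key s' s h.symm (fun j hj => (hlt j hj).symm) h1)⟩

end Pool.Agent.R674.EX
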