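import Mathlib
import Pool.Agent.R674.EX.Digits

/-!
# The continuum and the separation of its parts
-/

open Set Filter Topology

namespace Pool.Agent.R674.EX

/-- reflection -/
def rf (e : Bool) (x : ℝ) : ℝ := if e then 1 - x else x

/-- a point over the segment between the positions of `s` and `t` -/
noncomputable def pt (x : ℝ) (s t : Sg) (l : ℝ) : ℝ × ℝ × ℝ :=
  (x, (1 - l) * cc 1 s + l * cc 1 t, (1 - l) * cc 2 s + l * cc 2 t)

/-- `s` and `t` form a pair of level `k` at the side `e` -/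
def Pr (e : Bool) (k : ℕ) (s t : Sg) : Prop := Adj k s t ∧ Side e.toNat k s

/-- points of the bend between the strands of a pair -/
def Bend (e : Bool) (k : ℕ) (s t : Sg) (z : ℝ × ℝ × ℝ) : Prop :=
  ∃ u l : ℝ, u ∈ Icc (0 : ℝ) 1 ∧ l ∈ Icc (0 : ℝ) 1 ∧ (l = 0 ∨ l = 1 ∨ u = 1) ∧
    z = pt (rf e (1 + u * (2 / 5) ^ k)) s t l

/-- the continuum in `ℝ³` -/
def K3 : Set (ℝ × ℝ × ℝ) :=
  {z | (∃ s, ∃ x ∈ Icc (0 : ℝ) 1, z = pt x s s 0) ∨ ∃ e k s t, Pr e k s t ∧ Bend e k s t z}

/-- `z`, at the side `e`, is represented by `s` -/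
def Rep (e : Bool) (z : ℝ × ℝ × ℝ) (s : Sg) : Prop :=
  (z = pt z.1 s s 0 ∧ (rf e z.1 ≤ 1 ∨ ∃ k t, (Pr e k s t ∨ Pr e k t s) ∧
    rf e z.1 ≤ 1 + (2 / 5) ^ k)) ∨
  (∃ k t l, Pr e k s t ∧ l ∈ Icc (0 : ℝ) 1 ∧ rf e z.1 = 1 + (2 / 5) ^ k ∧ z = pt z.1 s t l)

theorem rf_rf (e : Bool) (x : ℝ) : rf e (rf e x) = x := by
  unfold rf; cases e <;> simp

theorem rf_not (e : Bool) (x : ℝ) : rf (!e) (rf e x) = 1 - x := by
  unfold rf; cases e <;> simp

theorem rf_dist (e : Bool) (x y : ℝ) : |rf e x - rf e y| = |x - y| := by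
  unfold rf; cases e
  · simp
  · simp only [if_true]
    rw [show 1 - x - (1 - y) = -(x - y) by ring, abs_neg]

/-- every point of the continuum has a sequence representing it at both sides -/
theorem exists_rep {z : ℝ × ℝ × ℝ} (hz : z ∈ K3) : ∃ s, ∀ e, 0 < rf e z.1 → Rep e z s := by
  rcases hz with ⟨s, x, hx, rfl⟩ | ⟨e', k, s, t, hp, u, l, hu, hl, hul, rfl⟩
  · refine ⟨s, fun e _ => Or.inl ⟨rfl, Or.inl ?_⟩⟩
    show rf e x ≤ 1
    unfold rf; split_ifs
    · linarith [hx.1]
    · exact hx.2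
  · have hk : (0 : ℝ) < (2 / 5) ^ k := by positivity
    -- the other side is excluded
    have hside : ∀ e, 0 < rf e (rf e' (1 + u * (2 / 5) ^ k)) → e = e' := by
      intro e he
      by_contra hne
      have : e = !e' := by cases e <;> cases e' <;> simp_all
      rw [this, rf_not] at he
      have := mul_nonneg hu.1 hk.le
      linarith
    rcases hul with h | h | h
    · refine ⟨s, fun e he => ?_⟩
      obtain rfl := hside e he
      refine Or.inl ⟨?_, Or.inr ⟨k, t, Or.inl hp, ?_⟩⟩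
      · rw [h]; unfold pt; simp
      · show rf e (rf e (1 + u * (2 / 5) ^ k)) ≤ _
        rw [rf_rf]
        nlinarith [hu.2]
    · refine ⟨t, fun e he => ?_⟩
      obtain rfl := hside e he
      refine Or.inl ⟨?_, Or.inr ⟨k, s, Or.inr hp, ?_⟩⟩
      · rw [h]; unfold pt; simp
      · show rf e (rf e (1 + u * (2 / 5) ^ k)) ≤ _
        rw [rf_rf]
        nlinarith [hu.2]
    · refine ⟨s, fun e he => ?_⟩
      obtain rfl := hside e he
      refine Or.inr ⟨k, t, l, hp, hl, ?_, rfl⟩
      show rf e (rf e (1 + u * (2 / 5) ^ k)) = _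
      rw [rf_rf, h, one_mul]

/-- separation of two sets of sequences in one planar coordinate -/
def HS (δ : ℝ) (s t s' t' : Sg) : Prop :=
  ∃ a : Fin 3, (a = 1 ∨ a = 2) ∧
    ((δ ≤ cc a s - cc a s' ∧ δ ≤ cc a s - cc a t' ∧ δ ≤ cc a t - cc a s' ∧ δ ≤ cc a t - cc a t') ∨
     (δ ≤ cc a s' - cc a s ∧ δ ≤ cc a t' - cc a s ∧ δ ≤ cc a s' - cc a t ∧ δ ≤ cc a t' - cc a t))

theorem conv_sep {δ p q p' q' l l' : ℝ} (hl : l ∈ Icc (0 : ℝ) 1) (hl' : l' ∈ Icc (0 : ℝ) 1)
    (h1 : δ ≤ p - p') (h2 : δ ≤ p - q') (h3 : δ ≤ q - p') (h4 : δ ≤ q - q') :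
    δ ≤ ((1 - l) * p + l * q) - ((1 - l') * p' + l' * q') := by
  have a0 := hl.1
  have a1 : 0 ≤ 1 - l := by linarith [hl.2]
  have b0 := hl'.1
  have b1 : 0 ≤ 1 - l' := by linarith [hl'.2]
  have e1 := mul_nonneg (mul_nonneg a1 b1) (sub_nonneg.2 h1)
  have e2 := mul_nonneg (mul_nonneg a1 b0) (sub_nonneg.2 h2)
  have e3 := mul_nonneg (mul_nonneg a0 b1) (sub_nonneg.2 h3)
  have e4 := mul_nonneg (mul_nonneg a0 b0) (sub_nonneg.2 h4)
  nlinarith

theorem HS_dist {δ : ℝ} {s t s' t' : Sg} (h : HS δ s t s' t') {x x' l l' : ℝ}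
    (hl : l ∈ Icc (0 : ℝ) 1) (hl' : l' ∈ Icc (0 : ℝ) 1) :
    δ ≤ dist (pt x s t l) (pt x' s' t' l') := by
  obtain ⟨a, ha, h⟩ := h
  rw [Prod.dist_eq, Prod.dist_eq]
  rcases ha with rfl | rfl
  · refine le_max_of_le_right (le_max_of_le_left ?_)
    rw [Real.dist_eq]
    rcases h with ⟨h1, h2, h3, h4⟩ | ⟨h1, h2, h3, h4⟩
    · exact (conv_sep hl hl' h1 h2 h3 h4).trans (le_abs_self _)
    · rw [abs_sub_comm]
      exact (conv_sep hl' hl h1 h3 h2 h4).trans (le_abs_self _)
  · refine le_max_of_le_right (le_max_of_le_right ?_)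
    rw [Real.dist_eq]
    rcases h with ⟨h1, h2, h3, h4⟩ | ⟨h1, h2, h3, h4⟩
    · exact (conv_sep hl hl' h1 h2 h3 h4).trans (le_abs_self _)
    · rw [abs_sub_comm]
      exact (conv_sep hl' hl h1 h3 h2 h4).trans (le_abs_self _)

theorem dist_x {δ : ℝ} {z z' : ℝ × ℝ × ℝ} {e : Bool} (h : δ ≤ |rf e z.1 - rf e z'.1|) :
    δ ≤ dist z z' := by
  rw [Prod.dist_eq]
  refine le_max_of_le_left ?_
  rw [Real.dist_eq, ← rf_dist e]
  exact h

/-- a digit `a` against another digit -/
theorem cc_gap {a : Fin 3} {u v : Sg} {i : ℕ} (hag : ∀ j < i, u j = v j) (hu : u i = a)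
    (hv : v i ≠ a) : (2 / 5 : ℝ) ^ i / 5 ≤ cc a u - cc a v := by
  unfold cc
  rw [SS_sub (ok_ph a) hag]
  have h1 := SS_nonneg (ok_ph a) (fun j => u (j + (i + 1)))
  have h2 := SS_le_one (ok_ph a) (fun j => v (j + (i + 1)))
  have h3 : ph a (u i) = 3 / 5 := by unfold ph; rw [if_pos hu]
  have h4 : ph a (v i) = 0 := by unfold ph; rw [if_neg hv]
  have h5 : (0 : ℝ) < (2 / 5) ^ i := by positivity
  rw [h3, h4, pow_succ]
  nlinarith

/-- different prefixes are separated -/
theorem pref_sep {s t s' t' : Sg} {n : ℕ} (hne : ∃ j < n, s j ≠ s' j) (ht : ∀ j < n, s j = t j)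
    (ht' : ∀ j < n, s' j = t' j) : HS ((2 / 5) ^ n / 5) s t s' t' := by
  classical
  have hex : ∃ i, s i ≠ s' i := by obtain ⟨j, _, h⟩ := hne; exact ⟨j, h⟩
  set i := Nat.find hex with hi
  have hne' : s i ≠ s' i := Nat.find_spec hex
  have hlt : ∀ j < i, s j = s' j := fun j hj => by
    by_contra hcon
    exact Nat.find_min hex hj hcon
  have hin : i < n := by
    obtain ⟨j, hj, h⟩ := hne
    exact lt_of_le_of_lt (Nat.find_min' hex h) hj
  have hpow : (2 / 5 : ℝ) ^ n / 5 ≤ (2 / 5) ^ i / 5 := by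
    have := pow_le_pow_of_le_one (by norm_num : (0 : ℝ) ≤ 2 / 5) (by norm_num) hin.le
    linarith
  have hti := ht i hin
  have hti' := ht' i hin
  have a1 : ∀ j < i, s j = t' j := fun j hj => (hlt j hj).trans (ht' j (hj.trans hin))
  have a2 : ∀ j < i, t j = s' j := fun j hj => (ht j (hj.trans hin)).symm.trans (hlt j hj)
  have a3 : ∀ j < i, t j = t' j := fun j hj => (a2 j hj).trans (ht' j (hj.trans hin))
  -- find the coordinate
  have hcase : ∃ a : Fin 3, (a = 1 ∨ a = 2) ∧ ((s i = a ∧ s' i ≠ a) ∨ (s' i = a ∧ s i ≠ a)) := by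
    generalize s i = d at hne'
    generalize s' i = d' at hne'
    revert hne'
    revert d d'
    decide
  obtain ⟨a, ha, h⟩ := hcase
  refine ⟨a, ha, ?_⟩
  rcases h with ⟨h1, h2⟩ | ⟨h1, h2⟩
  · left
    exact ⟨hpow.trans (cc_gap hlt h1 h2), hpow.trans (cc_gap a1 h1 (hti' ▸ h2)),
      hpow.trans (cc_gap a2 (hti ▸ h1) h2), hpow.trans (cc_gap a3 (hti ▸ h1) (hti' ▸ h2))⟩
  · right
    exact ⟨hpow.trans (cc_gap (fun j hj => (hlt j hj).symm) h1 h2),
      hpow.trans (cc_gap (fun j hj => (a1 j hj).symm) (hti' ▸ h1) h2),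
      hpow.trans (cc_gap (fun j hj => (a2 j hj).symm) h1 (hti ▸ h2)),
      hpow.trans (cc_gap (fun j hj => (a3 j hj).symm) (hti' ▸ h1) (hti ▸ h2))⟩

/-- a pair is determined by its side, its level and its prefix -/
theorem pair_unique {e : Bool} {k : ℕ} {s t s' t' : Sg} (h : Pr e k s t) (h' : Pr e k s' t')
    (hag : ∀ j < k, s j = s' j) : s = s' := by
  obtain ⟨ha, hs⟩ := h
  obtain ⟨ha', hs'⟩ := h'
  obtain ⟨x, hx⟩ := hs
  obtain ⟨x', hx'⟩ := hs'
  simp only [idx] at hx hx'
  rw [idx_congr hag] at hx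
  have h1 := ha.dig
  have h2 := ha'.dig
  have h3 := (t k).2
  have h4 := (t' k).2
  have h5 : (s k).val = (s' k).val := by omega
  funext j
  rcases lt_trichotomy j k with h | rfl | h
  · exact hag j h
  · exact Fin.ext h5
  · rw [ha.two j h, ha'.two j h]

theorem exists_diff {e m : ℕ} {s s' : Sg} (h : gr e m s ≠ gr e m s') : ∃ j < m, s j ≠ s' j := by
  by_contra hcon
  push Not at hcon
  apply h
  unfold gr
  rw [idx_congr hcon]

theorem pow_bound {k m : ℕ} (h : k < m) : (2 / 5 : ℝ) ^ m ≤ 2 / 5 * (2 / 5) ^ k := by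
  have := pow_le_pow_of_le_one (by norm_num : (0 : ℝ) ≤ 2 / 5) (by norm_num) (Nat.succ_le_of_lt h)
  rw [Nat.succ_eq_add_one, pow_succ] at this
  linarith

/-- separation of a strand (with its vertical part) from a horizontal part -/
theorem sep_SH {e : Bool} {m : ℕ} {z z' : ℝ × ℝ × ℝ} {s s' : Sg} (hz : z = pt z.1 s s 0)
    (hz2 : rf e z.1 ≤ 1 ∨ ∃ k t, (Pr e k s t ∨ Pr e k t s) ∧ rf e z.1 ≤ 1 + (2 / 5) ^ k)
    {k' : ℕ} {t' : Sg} {l' : ℝ} (hp' : Pr e k' s' t') (hl' : l' ∈ Icc (0 : ℝ) 1)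
    (hx' : rf e z'.1 = 1 + (2 / 5) ^ k') (hz' : z' = pt z'.1 s' t' l')
    (hg : gr e.toNat m s ≠ gr e.toNat m s') : (2 / 5 : ℝ) ^ m / 5 ≤ dist z z' := by
  have h00 : (0 : ℝ) ∈ Icc (0 : ℝ) 1 := ⟨le_rfl, zero_le_one⟩
  rcases Nat.lt_or_ge k' m with hkm | hkm
  · by_cases hpre : ∃ j < k', s j ≠ s' j
    · have h1 := pref_sep (t := s) hpre (fun _ _ => rfl) (hp'.1.pre)
      have h2 := HS_dist h1 (x := z.1) (x' := z'.1) h00 hl'
      rw [← hz, ← hz'] at h2
      have := pow_bound hkm
      have h3 : (0 : ℝ) < (2 / 5) ^ k' := by positivity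
      linarith
    · push Not at hpre
      have hb := pow_bound hkm
      have hk0 : (0 : ℝ) < (2 / 5) ^ k' := by positivity
      -- the height argument
      have hheight : rf e z.1 ≤ 1 + 2 / 5 * (2 / 5) ^ k' → (2 / 5 : ℝ) ^ m / 5 ≤ dist z z' := by
        intro h
        apply dist_x (e := e)
        rw [abs_sub_comm, hx']
        refine le_trans ?_ (le_abs_self _)
        linarith
      rcases hz2 with h | ⟨k, t, hp, hx⟩
      · exact hheight (by linarith)
      · rcases lt_trichotomy k k' with hkk | hkk | hkk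
        · -- the special case
          have hHS : HS ((2 / 5) ^ k' / 5) s s s' t' := by
            have hd1 := hp'.1.dig
            have hd2 := (t' k').2
            obtain ⟨x, hx⟩ := hp'.2
            simp only [idx] at hx
            refine ⟨2, Or.inr rfl, ?_⟩
            rcases hp with hp | hp
            · obtain ⟨y, hy⟩ := hp.1.idx_s hp.2 hkk
              rw [idx_congr hpre] at hy
              have hs2 : s k' = 2 := hp.1.two k' hkk
              have e1 : (s' k').val = 0 := by omega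
              have e2 : (t' k').val = 1 := by omega
              have n1 : s' k' ≠ 2 := fun h => by rw [h] at e1; simp at e1
              have n2 : t' k' ≠ 2 := fun h => by rw [h] at e2; simp at e2
              have g1 := cc_gap (a := 2) hpre hs2 n1
              have g2 := cc_gap (a := 2) (u := s) (v := t') (i := k')
                (fun j hj => (hpre j hj).trans (hp'.1.pre j hj)) hs2 n2
              exact Or.inl ⟨g1, g2, g1, g2⟩
            · obtain ⟨y, hy⟩ := hp.1.idx_s hp.2 hkk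
              have hy' := hp.1.idx_t hkk
              rw [idx_congr hpre] at hy'
              have hs0 : s k' = 0 := hp.1.zero k' hkk
              have e1 : (s' k').val = 1 := by omega
              have e2 : (t' k').val = 2 := by omega
              have n2 : t' k' = 2 := Fin.ext e2
              have n0 : s k' ≠ 2 := by rw [hs0]; decide
              have g2 := cc_gap (a := 2) (u := t') (v := s) (i := k')
                (fun j hj => ((hpre j hj).trans (hp'.1.pre j hj)).symm) n2 n0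
              have g1 : (2 / 5 : ℝ) ^ k' / 5 ≤ cc 2 s' - cc 2 s := by
                unfold cc
                rw [SS_sub (ok_ph 2) (fun j hj => (hpre j hj).symm)]
                have h3 : ph 2 (s' k') = 0 := by
                  unfold ph; rw [if_neg]; intro h; rw [h] at e1; simp at e1
                have h4 : ph 2 (s k') = 0 := by unfold ph; rw [if_neg n0]
                have h5 : SS (ph 2) (2 / 5) (fun j => s' (j + (k' + 1))) = 1 :=
                  SS_const (ok_ph 2) (d := 2) (by unfold ph; norm_num)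
                    (fun i => hp'.1.two _ (by omega))
                have h6 : SS (ph 2) (2 / 5) (fun j => s (j + (k' + 1))) = 0 :=
                  SS_zero (d := 0) (by unfold ph; rw [if_neg (by decide)])
                    (fun i => hp.1.zero _ (by omega))
                rw [h3, h4, h5, h6, pow_succ]
                linarith
              exact Or.inr ⟨g1, g2, g1, g2⟩
          have h2 := HS_dist hHS (x := z.1) (x' := z'.1) h00 hl'
          rw [← hz, ← hz'] at h2
          linarith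
        · subst hkk
          exfalso
          rcases hp with hp | hp
          · exact hg (by rw [pair_unique hp hp' hpre])
          · have hts : t = s' := pair_unique hp hp' (fun j hj => (hp.1.pre j hj).trans (hpre j hj))
            exact hg (by rw [← hts, hp.1.gr_eq hp.2])
        · apply hheight
          have := pow_bound hkk
          linarith
  · obtain ⟨j, hj, hne⟩ := exists_diff hg
    have h1 := pref_sep (t := s) (t' := t') ⟨j, hj, hne⟩ (fun _ _ => rfl)
      (fun i hi => hp'.1.pre i (lt_of_lt_of_le hi hkm))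
    have h2 := HS_dist h1 (x := z.1) (x' := z'.1) h00 hl'
    rwa [← hz, ← hz'] at h2

/-- **Separation of the groups.** -/
theorem sep {e : Bool} {m : ℕ} {z z' : ℝ × ℝ × ℝ} {s s' : Sg} (h : Rep e z s) (h' : Rep e z' s')
    (hg : gr e.toNat m s ≠ gr e.toNat m s') : (2 / 5 : ℝ) ^ m / 5 ≤ dist z z' := by
  have h00 : (0 : ℝ) ∈ Icc (0 : ℝ) 1 := ⟨le_rfl, zero_le_one⟩
  rcases h with ⟨hz, hz2⟩ | ⟨k, t, l, hp, hl, hx, hz⟩
  · rcases h' with ⟨hz', hz2'⟩ | ⟨k', t', l', hp', hl', hx', hz'⟩
    · have h1 := pref_sep (t := s) (t' := s') (exists_diff hg) (fun _ _ => rfl) (fun _ _ => rfl)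
      have h2 := HS_dist h1 (x := z.1) (x' := z'.1) h00 h00
      rwa [← hz, ← hz'] at h2
    · exact sep_SH hz hz2 hp' hl' hx' hz' hg
  · rcases h' with ⟨hz', hz2'⟩ | ⟨k', t', l', hp', hl', hx', hz'⟩
    · rw [dist_comm]
      exact sep_SH hz' hz2' hp hl hx hz (Ne.symm hg)
    · -- two horizontal parts
      have key : ∀ n, n ≤ m → (∃ j < n, s j ≠ s' j) → n ≤ k → n ≤ k' →
          (2 / 5 : ℝ) ^ m / 5 ≤ dist z z' := by
        intro n hnm hne hnk hnk'
        have h1 := pref_sep (t := t) (t' := t') hne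
          (fun i hi => hp.1.pre i (lt_of_lt_of_le hi hnk))
          (fun i hi => hp'.1.pre i (lt_of_lt_of_le hi hnk'))
        have h2 := HS_dist h1 (x := z.1) (x' := z'.1) hl hl'
        rw [← hz, ← hz'] at h2
        have := pow_le_pow_of_le_one (by norm_num : (0 : ℝ) ≤ 2 / 5) (by norm_num) hnm
        linarith
      rcases lt_trichotomy k k' with hkk | hkk | hkk
      · rcases Nat.lt_or_ge k m with hkm | hkm
        · apply dist_x (e := e)
          rw [hx, hx']
          refine le_trans ?_ (le_abs_self _)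
          have h1 := pow_bound hkk
          have h2 := pow_bound hkm
          have h3 : (0 : ℝ) < (2 / 5) ^ k := by positivity
          linarith
        · exact key m le_rfl (exists_diff hg) hkm (hkm.trans hkk.le)
      · subst hkk
        rcases Nat.lt_or_ge k m with hkm | hkm
        · by_cases hpre : ∃ j < k, s j ≠ s' j
          · exact key k hkm.le hpre le_rfl le_rfl
          · push Not at hpre
            exact absurd (by rw [pair_unique hp hp' hpre]) hg
        · exact key m le_rfl (exists_diff hg) hkm hkm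
      · rcases Nat.lt_or_ge k' m with hkm | hkm
        · apply dist_x (e := e)
          rw [abs_sub_comm, hx, hx']
          refine le_trans ?_ (le_abs_self _)
          have h1 := pow_bound hkk
          have h2 := pow_bound hkm
          have h3 : (0 : ℝ) < (2 / 5) ^ k' := by positivity
          linarith
        · exact key m le_rfl (exists_diff hg) (hkm.trans hkk.le) hkm

end Pool.Agent.R674.EX
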