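import Mathlib
import Pool.Agent.R674.EX.Sep

/-!
# The continuum is compact and connected
-/

open Set Filter Topology

namespace Pool.Agent.R674.EX

theorem cc_cont (a : Fin 3) : Continuous (cc a) := SS_continuous (ok_ph a)

theorem pt_cont : Continuous (fun p : ℝ × Sg × Sg × ℝ => pt p.1 p.2.1 p.2.2.1 p.2.2.2) := by
  unfold pt
  have h1 := cc_cont 1
  have h2 := cc_cont 2
  fun_prop

theorem rf_cont (e : Bool) : Continuous (rf e) := by
  unfold rf; cases e
  · simp only [Bool.false_eq_true, if_false]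
    exact continuous_id
  · simp only [if_true]
    exact continuous_const.sub continuous_id

/-- the union of the strands -/
def S3 : Set (ℝ × ℝ × ℝ) := {z | ∃ s, ∃ x ∈ Icc (0 : ℝ) 1, z = pt x s s 0}

/-- the union of the bends of level `k` at the side `e` -/
def B3 (e : Bool) (k : ℕ) : Set (ℝ × ℝ × ℝ) := {z | ∃ s t, Pr e k s t ∧ Bend e k s t z}

theorem K3_eq : K3 = S3 ∪ ⋃ e, ⋃ k, B3 e k := by
  ext z
  simp only [K3, S3, B3, mem_ofPred_eq, mem_union, mem_iUnion]

theorem S3_compact : IsCompact S3 := by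
  have h : S3 = (fun p : ℝ × Sg => pt p.1 p.2 p.2 0) '' (Icc (0 : ℝ) 1 ×ˢ univ) := by
    ext z
    constructor
    · rintro ⟨s, x, hx, rfl⟩
      exact ⟨(x, s), ⟨hx, mem_univ _⟩, rfl⟩
    · rintro ⟨⟨x, s⟩, ⟨hx, -⟩, rfl⟩
      exact ⟨s, x, hx, rfl⟩
  rw [h]
  apply (isCompact_Icc.prod isCompact_univ).image
  exact pt_cont.comp (continuous_fst.prodMk (continuous_snd.prodMk
    (continuous_snd.prodMk continuous_const)))

theorem idx_cont (m : ℕ) : Continuous (idx m) := by
  induction m with
  | zero => exact continuous_const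
  | succ m ih =>
    have h1 : Continuous (fun s : Sg => (s m).val) :=
      (continuous_of_discreteTopology (f := fun d : Fin 3 => d.val)).comp (continuous_apply m)
    exact (continuous_const.mul ih).add h1

theorem pairs_closed (e : Bool) (k : ℕ) : IsClosed {p : Sg × Sg | Pr e k p.1 p.2} := by
  have h1 : ∀ i, IsClosed {p : Sg × Sg | p.1 i = p.2 i} := fun i =>
    isClosed_eq ((continuous_apply i).comp continuous_fst) ((continuous_apply i).comp continuous_snd)
  have hv : Continuous (fun d : Fin 3 => d.val) := continuous_of_discreteTopology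
  have h2 : IsClosed {p : Sg × Sg | (p.2 k).val = (p.1 k).val + 1} :=
    isClosed_eq (hv.comp ((continuous_apply k).comp continuous_snd))
      ((hv.comp ((continuous_apply k).comp continuous_fst)).add continuous_const)
  have h3 : ∀ i, IsClosed {p : Sg × Sg | p.1 i = 2} := fun i =>
    isClosed_eq ((continuous_apply i).comp continuous_fst) continuous_const
  have h4 : ∀ i, IsClosed {p : Sg × Sg | p.2 i = 0} := fun i =>
    isClosed_eq ((continuous_apply i).comp continuous_snd) continuous_const
  have h5 : IsClosed {p : Sg × Sg | Even (idx (k + 1) p.1 + e.toNat)} :=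
    (isClosed_discrete {n : ℕ | Even (n + e.toNat)}).preimage
      ((idx_cont (k + 1)).comp continuous_fst)
  have h : {p : Sg × Sg | Pr e k p.1 p.2} = (⋂ i, ⋂ (_ : i < k), {p : Sg × Sg | p.1 i = p.2 i}) ∩
      {p : Sg × Sg | (p.2 k).val = (p.1 k).val + 1} ∩
      (⋂ i, ⋂ (_ : k < i), {p : Sg × Sg | p.1 i = 2}) ∩
      (⋂ i, ⋂ (_ : k < i), {p : Sg × Sg | p.2 i = 0}) ∩
      {p : Sg × Sg | Even (idx (k + 1) p.1 + e.toNat)} := by
    ext p
    simp only [mem_inter_iff, mem_iInter, mem_ofPred_eq]
    constructor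
    · rintro ⟨h, h'⟩
      exact ⟨⟨⟨⟨h.pre, h.dig⟩, h.two⟩, h.zero⟩, h'⟩
    · rintro ⟨⟨⟨⟨h1, h2⟩, h3⟩, h4⟩, h5⟩
      exact ⟨⟨h1, h2, h3, h4⟩, h5⟩
  rw [h]
  exact (((isClosed_iInter fun i => isClosed_iInter fun _ => h1 i).inter h2).inter
    (isClosed_iInter fun i => isClosed_iInter fun _ => h3 i)).inter
    (isClosed_iInter fun i => isClosed_iInter fun _ => h4 i) |>.inter h5

theorem B3_compact (e : Bool) (k : ℕ) : IsCompact (B3 e k) := by
  have h : B3 e k = (fun p : (Sg × Sg) × (ℝ × ℝ) =>
      pt (rf e (1 + p.2.1 * (2 / 5) ^ k)) p.1.1 p.1.2 p.2.2) ''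
      ({p : Sg × Sg | Pr e k p.1 p.2} ×ˢ ((Icc (0 : ℝ) 1 ×ˢ Icc (0 : ℝ) 1) ∩
        {q : ℝ × ℝ | q.2 = 0 ∨ q.2 = 1 ∨ q.1 = 1})) := by
    ext z
    constructor
    · rintro ⟨s, t, hp, u, l, hu, hl, hul, rfl⟩
      exact ⟨((s, t), (u, l)), ⟨hp, ⟨hu, hl⟩, hul⟩, rfl⟩
    · rintro ⟨⟨⟨s, t⟩, ⟨u, l⟩⟩, ⟨hp, ⟨hu, hl⟩, hul⟩, rfl⟩
      exact ⟨s, t, hp, u, l, hu, hl, hul, rfl⟩
  rw [h]
  have hc : IsClosed {q : ℝ × ℝ | q.2 = 0 ∨ q.2 = 1 ∨ q.1 = 1} :=
    (isClosed_eq continuous_snd continuous_const).union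
      ((isClosed_eq continuous_snd continuous_const).union
        (isClosed_eq continuous_fst continuous_const))
  apply ((pairs_closed e k).isCompact.prod ((isCompact_Icc.prod isCompact_Icc).inter_right hc)).image
  have hx : Continuous (fun p : (Sg × Sg) × (ℝ × ℝ) => rf e (1 + p.2.1 * (2 / 5) ^ k)) :=
    (rf_cont e).comp (continuous_const.add ((continuous_fst.comp continuous_snd).mul
      continuous_const))
  exact pt_cont.comp (hx.prodMk ((continuous_fst.comp continuous_fst).prodMk
    ((continuous_snd.comp continuous_fst).prodMk (continuous_snd.comp continuous_snd))))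

/-- bends of high level are close to the strands -/
theorem B3_near {e : Bool} {k : ℕ} {z : ℝ × ℝ × ℝ} (hz : z ∈ B3 e k) :
    ∃ w ∈ S3, dist z w ≤ (2 / 5) ^ k := by
  obtain ⟨s, t, hp, u, l, hu, hl, hul, rfl⟩ := hz
  have hk : (0 : ℝ) < (2 / 5) ^ k := by positivity
  refine ⟨pt (rf e 1) s s 0, ⟨s, rf e 1, ?_, rfl⟩, ?_⟩
  · unfold rf; cases e <;> simp
  · rw [Prod.dist_eq, Prod.dist_eq]
    have key : ∀ a, |((1 - l) * cc a s + l * cc a t) - ((1 - 0) * cc a s + 0 * cc a s)| ≤
        (2 / 5 : ℝ) ^ k := by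
      intro a
      have h1 : |cc a s - cc a t| ≤ (2 / 5) ^ k := SS_close (ok_ph a) hp.1.pre
      rw [show ((1 - l) * cc a s + l * cc a t) - ((1 - 0) * cc a s + 0 * cc a s) =
        -(l * (cc a s - cc a t)) by ring, abs_neg, abs_mul, abs_of_nonneg hl.1]
      have := abs_nonneg (cc a s - cc a t)
      nlinarith [hl.1, hl.2]
    refine max_le ?_ (max_le ?_ ?_)
    · show dist (rf e (1 + u * (2 / 5) ^ k)) (rf e 1) ≤ _
      rw [Real.dist_eq, rf_dist, show 1 + u * (2 / 5 : ℝ) ^ k - 1 = u * (2 / 5) ^ k by ring,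
        abs_of_nonneg (mul_nonneg hu.1 hk.le)]
      nlinarith [hu.2]
    · exact key 1
    · exact key 2

theorem K3_closed : IsClosed K3 := by
  have h : K3 = ⋂ N : ℕ, (Metric.cthickening ((2 / 5) ^ N) S3 ∪ ⋃ k ∈ Finset.range N,
      (B3 false k ∪ B3 true k)) := by
    apply Subset.antisymm
    · rw [K3_eq]
      refine subset_iInter fun N => ?_
      apply union_subset
      · exact (Metric.self_subset_cthickening S3).trans subset_union_left
      · refine iUnion_subset fun e => iUnion_subset fun k => ?_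
        intro z hz
        rcases Nat.lt_or_ge k N with hk | hk
        · right
          simp only [mem_iUnion, Finset.mem_range]
          refine ⟨k, hk, ?_⟩
          cases e
          · exact Or.inl hz
          · exact Or.inr hz
        · left
          obtain ⟨w, hw, hd⟩ := B3_near hz
          apply Metric.mem_cthickening_of_dist_le z w _ _ hw
          exact hd.trans (pow_le_pow_of_le_one (by norm_num) (by norm_num) hk)
    · intro z hz
      rw [mem_iInter] at hz
      by_cases hB : ∃ e k, z ∈ B3 e k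
      · obtain ⟨e, k, hB⟩ := hB
        rw [K3_eq]
        right
        exact mem_iUnion.2 ⟨e, mem_iUnion.2 ⟨k, hB⟩⟩
      · push Not at hB
        have h1 : ∀ N : ℕ, z ∈ Metric.cthickening ((2 / 5) ^ N) S3 := by
          intro N
          rcases hz N with h | h
          · exact h
          · simp only [mem_iUnion] at h
            obtain ⟨k, _, h | h⟩ := h
            · exact absurd h (hB _ _)
            · exact absurd h (hB _ _)
        have h2 : Metric.infEDist z S3 = 0 := by
          have hlim : Tendsto (fun N : ℕ => ENNReal.ofReal ((2 / 5 : ℝ) ^ N)) atTop (𝓝 0) := by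
            have h3 := ENNReal.tendsto_ofReal (tendsto_pow_atTop_nhds_zero_of_lt_one
              (by norm_num : (0 : ℝ) ≤ 2 / 5) (by norm_num))
            simpa using h3
          exact le_antisymm (ge_of_tendsto' hlim h1) zero_le
        have h3 : z ∈ closure S3 := Metric.mem_closure_iff_infEDist_zero.2 h2
        rw [S3_compact.isClosed.closure_eq] at h3
        rw [K3_eq]
        exact Or.inl h3
  rw [h]
  refine isClosed_iInter fun N => (Metric.isClosed_cthickening).union ?_
  exact (Finset.range N).finite_toSet.isClosed_biUnion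
    (fun k _ => (B3_compact false k).isClosed.union (B3_compact true k).isClosed)

theorem K3_compact : IsCompact K3 := by
  have hbox : IsCompact ((Icc (-1 : ℝ) 2) ×ˢ ((Icc (0 : ℝ) 1) ×ˢ (Icc (0 : ℝ) 1))) :=
    isCompact_Icc.prod (isCompact_Icc.prod isCompact_Icc)
  refine hbox.of_isClosed_subset K3_closed ?_
  have hc0 : ∀ a s, 0 ≤ cc a s := fun a s => SS_nonneg (ok_ph a) s
  have hc1 : ∀ a s, cc a s ≤ 1 := fun a s => SS_le_one (ok_ph a) s
  have hseg : ∀ a s t (l : ℝ), l ∈ Icc (0 : ℝ) 1 → (1 - l) * cc a s + l * cc a t ∈ Icc (0 : ℝ) 1 := by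
    intro a s t l hl
    have h1 := hc0 a s; have h2 := hc1 a s; have h3 := hc0 a t; have h4 := hc1 a t
    have hl0 := hl.1; have hl1 := hl.2
    constructor <;> nlinarith
  rintro z (⟨s, x, hx, rfl⟩ | ⟨e, k, s, t, hp, u, l, hu, hl, hul, rfl⟩)
  · exact ⟨⟨by show (-1 : ℝ) ≤ x; linarith [hx.1], by show x ≤ 2; linarith [hx.2]⟩,
      hseg 1 s s 0 ⟨le_rfl, zero_le_one⟩, hseg 2 s s 0 ⟨le_rfl, zero_le_one⟩⟩
  · refine ⟨?_, hseg 1 s t l hl, hseg 2 s t l hl⟩
    show rf e (1 + u * (2 / 5) ^ k) ∈ Icc (-1 : ℝ) 2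
    have h1 : 0 ≤ u * (2 / 5 : ℝ) ^ k := mul_nonneg hu.1 (by positivity)
    have h2 : u * (2 / 5 : ℝ) ^ k ≤ 1 := by
      have : (2 / 5 : ℝ) ^ k ≤ 1 := pow_le_one₀ (by norm_num) (by norm_num)
      have h0 : (0 : ℝ) ≤ (2 / 5 : ℝ) ^ k := by positivity
      nlinarith [hu.1, hu.2]
    unfold rf
    cases e
    · simp only [Bool.false_eq_true, if_false]
      constructor <;> linarith
    · simp only [if_true]
      constructor <;> linarith

theorem strand_mem (x : ℝ) (s : Sg) (hx : x ∈ Icc (0 : ℝ) 1) : pt x s s 0 ∈ K3 :=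
  Or.inl ⟨s, x, hx, rfl⟩

theorem K3_connected : IsConnected K3 := by
  refine ⟨⟨pt 0 (fun _ => 0) (fun _ => 0) 0, strand_mem 0 _ ⟨le_rfl, zero_le_one⟩⟩, ?_⟩
  apply isPreconnected_of_forall_constant
  intro f hf
  -- constancy along paths
  have path : ∀ h : ℝ → ℝ × ℝ × ℝ, Continuous h → (∀ u ∈ Icc (0 : ℝ) 1, h u ∈ K3) →
      ∀ a ∈ Icc (0 : ℝ) 1, ∀ b ∈ Icc (0 : ℝ) 1, f (h a) = f (h b) := by
    intro h hh hK a ha b hb
    have hpre : IsPreconnected (h '' Icc (0 : ℝ) 1) := isPreconnected_Icc.image h hh.continuousOn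
    have hsub : h '' Icc (0 : ℝ) 1 ⊆ K3 := by rintro _ ⟨u, hu, rfl⟩; exact hK u hu
    exact hpre.constant (hf.mono hsub) ⟨a, ha, rfl⟩ ⟨b, hb, rfl⟩
  have i0 : (0 : ℝ) ∈ Icc (0 : ℝ) 1 := ⟨le_rfl, zero_le_one⟩
  have i1 : (1 : ℝ) ∈ Icc (0 : ℝ) 1 := ⟨zero_le_one, le_rfl⟩
  set F : Sg → Bool := fun s => f (pt 0 s s 0) with hF
  have strand : ∀ s, ∀ x ∈ Icc (0 : ℝ) 1, f (pt x s s 0) = F s := by
    intro s x hx
    have hc : Continuous (fun x : ℝ => pt x s s 0) := pt_cont.comp
      (continuous_id.prodMk (continuous_const.prodMk (continuous_const.prodMk continuous_const)))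
    exact path _ hc (fun u hu => strand_mem u s hu) x hx 0 i0
  have bend : ∀ e k s t, Pr e k s t → ∀ z, Bend e k s t z → f z = F s := by
    intro e k s t hp z hz
    have hc : Continuous (fun p : ℝ × ℝ => pt (rf e (1 + p.1 * (2 / 5) ^ k)) s t p.2) :=
      pt_cont.comp (((rf_cont e).comp (continuous_const.add (continuous_fst.mul
        continuous_const))).prodMk (continuous_const.prodMk
          (continuous_const.prodMk continuous_snd)))
    have mem : ∀ u l : ℝ, u ∈ Icc (0 : ℝ) 1 → l ∈ Icc (0 : ℝ) 1 → (l = 0 ∨ l = 1 ∨ u = 1) →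
        pt (rf e (1 + u * (2 / 5) ^ k)) s t l ∈ K3 :=
      fun u l hu hl hul => Or.inr ⟨e, k, s, t, hp, u, l, hu, hl, hul, rfl⟩
    have p1 : ∀ u ∈ Icc (0 : ℝ) 1, f (pt (rf e (1 + u * (2 / 5) ^ k)) s t 0) = F s := by
      intro u hu
      have h1 := path (fun u => pt (rf e (1 + u * (2 / 5) ^ k)) s t 0)
        (hc.comp (continuous_id.prodMk continuous_const)) (fun u hu => mem u 0 hu i0 (Or.inl rfl))
        u hu 0 i0
      have h2 : pt (rf e (1 + 0 * (2 / 5) ^ k)) s t 0 = pt (rf e 1) s s 0 := by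
        unfold pt; simp
      have h3 : rf e 1 ∈ Icc (0 : ℝ) 1 := by unfold rf; cases e <;> simp
      rw [h1, h2, strand s _ h3]
    have p2 : ∀ l ∈ Icc (0 : ℝ) 1, f (pt (rf e (1 + 1 * (2 / 5) ^ k)) s t l) = F s := by
      intro l hl
      have h1 := path (fun l => pt (rf e (1 + 1 * (2 / 5) ^ k)) s t l)
        (hc.comp (continuous_const.prodMk continuous_id))
        (fun l hl => mem 1 l i1 hl (Or.inr (Or.inr rfl))) l hl 0 i0
      rw [h1, p1 1 i1]
    have p3 : ∀ u ∈ Icc (0 : ℝ) 1, f (pt (rf e (1 + u * (2 / 5) ^ k)) s t 1) = F s := by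
      intro u hu
      have h1 := path (fun u => pt (rf e (1 + u * (2 / 5) ^ k)) s t 1)
        (hc.comp (continuous_id.prodMk continuous_const))
        (fun u hu => mem u 1 hu i1 (Or.inr (Or.inl rfl))) u hu 1 i1
      rw [h1, p2 1 i1]
    obtain ⟨u, l, hu, hl, hul, rfl⟩ := hz
    rcases hul with rfl | rfl | rfl
    · exact p1 u hu
    · exact p3 u hu
    · exact p2 l hl
  -- the values at adjacent sequences agree
  have adj : ∀ k s t, Adj k s t → F s = F t := by
    intro k s t h
    obtain ⟨e, he⟩ : ∃ e : Bool, Side e.toNat k s := by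
      rcases Nat.even_or_odd (idx (k + 1) s) with h1 | h1
      · exact ⟨false, by simpa [Side] using h1⟩
      · exact ⟨true, by
          show Even (idx (k + 1) s + 1)
          exact h1.add_one⟩
    have hz : Bend e k s t (pt (rf e 1) t t 0) := by
      refine ⟨0, 1, i0, i1, Or.inr (Or.inl rfl), ?_⟩
      unfold pt; simp
    have h1 := bend e k s t ⟨h, he⟩ _ hz
    have h3 : rf e 1 ∈ Icc (0 : ℝ) 1 := by unfold rf; cases e <;> simp
    rw [← h1, strand t _ h3]
  -- `F` depends on finitely many digits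
  obtain ⟨m, hm⟩ : ∃ m, ∀ s s' : Sg, (∀ j < m, s j = s' j) → F s = F s' := by
    set g : ℝ × ℝ × ℝ → ℝ := fun z => if f z then 1 else 0 with hg
    have hgc : ContinuousOn g K3 :=
      (continuous_of_discreteTopology (f := fun b : Bool => if b then (1 : ℝ) else 0)).comp_continuousOn
        hf
    have huc := K3_compact.uniformContinuousOn_of_continuous hgc
    rw [Metric.uniformContinuousOn_iff] at huc
    obtain ⟨δ, hδ, hu⟩ := huc 1 one_pos
    obtain ⟨m, hm⟩ := exists_pow_lt_of_lt_one hδ (by norm_num : (2 / 5 : ℝ) < 1)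
    refine ⟨m, fun s s' hag => ?_⟩
    have hd : dist (pt 0 s s 0) (pt 0 s' s' 0) < δ := by
      refine lt_of_le_of_lt ?_ hm
      rw [Prod.dist_eq, Prod.dist_eq]
      have key : ∀ a, |((1 - 0) * cc a s + 0 * cc a s) - ((1 - 0) * cc a s' + 0 * cc a s')| ≤
          (2 / 5 : ℝ) ^ m := by
        intro a
        have := SS_close (ok_ph a) hag
        simpa [cc] using this
      refine max_le ?_ (max_le (key 1) (key 2))
      show dist (0 : ℝ) 0 ≤ _
      rw [dist_self]; positivity
    have h1 := hu _ (strand_mem 0 s i0) _ (strand_mem 0 s' i0) hd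
    by_contra hne
    have h2 : g (pt 0 s s 0) = if F s then 1 else 0 := rfl
    have h3 : g (pt 0 s' s' 0) = if F s' then 1 else 0 := rfl
    rw [h2, h3, Real.dist_eq] at h1
    cases hs : F s <;> cases hs' : F s' <;> simp_all
  -- hence `F` is constant
  have hconst : ∀ n, (∀ s s' : Sg, (∀ j < n, s j = s' j) → F s = F s') →
      ∀ s s' : Sg, F s = F s' := by
    intro n
    induction n with
    | zero => intro h s s'; exact h s s' (fun j hj => absurd hj (Nat.not_lt_zero _))
    | succ n ih =>
      intro h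
      apply ih
      intro s s' hag
      let u : Fin 3 → Sg := fun a i => if i < n then s i else if i = n then a else 2
      let v : Fin 3 → Sg := fun a i => if i < n then s i else if i = n then a else 0
      have huv : ∀ a, F (u a) = F (v a) := by
        intro a
        apply h
        intro j hj
        simp only [u, v]
        rcases Nat.lt_succ_iff_lt_or_eq.1 hj with h1 | h1
        · simp only [h1, if_true]
        · simp only [h1, lt_irrefl, if_false, if_true]
      have hadj : ∀ a b : Fin 3, b.val = a.val + 1 → F (u a) = F (v b) := by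
        intro a b hab
        apply adj n
        refine ⟨?_, ?_, ?_, ?_⟩
        · intro i hi
          simp only [u, v, if_pos hi]
        · simp only [u, v, lt_irrefl, if_false, if_true]
          exact hab
        · intro i hi
          simp only [u]
          rw [if_neg (by omega), if_neg (by omega)]
        · intro i hi
          simp only [v]
          rw [if_neg (by omega), if_neg (by omega)]
      have h01 : F (u 0) = F (u 1) := (hadj 0 1 rfl).trans (huv 1).symm
      have h12 : F (u 1) = F (u 2) := (hadj 1 2 rfl).trans (huv 2).symm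
      have hall : ∀ a, F (u a) = F (u 0) := by
        intro a
        fin_cases a
        · rfl
        · exact h01.symm
        · exact (h01.trans h12).symm
      have e1 : F s = F (u (s n)) := by
        apply h
        intro j hj
        simp only [u]
        rcases Nat.lt_succ_iff_lt_or_eq.1 hj with h1 | h1
        · rw [if_pos h1]
        · rw [if_neg (by omega), if_pos h1, h1]
      have e2 : F s' = F (u (s' n)) := by
        apply h
        intro j hj
        simp only [u]
        rcases Nat.lt_succ_iff_lt_or_eq.1 hj with h1 | h1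
        · rw [if_pos h1, hag j h1]
        · rw [if_neg (by omega), if_pos h1, h1]
      rw [e1, e2, hall, hall (s' n)]
  have hval : ∀ z ∈ K3, ∃ s, f z = F s := by
    rintro z (⟨s, x, hx, rfl⟩ | ⟨e, k, s, t, hp, hz⟩)
    · exact ⟨s, strand s x hx⟩
    · exact ⟨s, bend e k s t hp z hz⟩
  intro x hx y hy
  obtain ⟨s, hs⟩ := hval x hx
  obtain ⟨s', hs'⟩ := hval y hy
  rw [hs, hs', hconst m hm s s']

/-- **The parameter is Lipschitz on the continuum.** -/
theorem lip {z z' : ℝ × ℝ × ℝ} {s s' : Sg} (h : ∀ e, 0 < rf e z.1 → Rep e z s)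
    (h' : ∀ e, 0 < rf e z'.1 → Rep e z' s') : |PP s - PP s'| ≤ 30 * dist z z' := by
  by_cases hside : ∃ e, 0 < rf e z.1 ∧ 0 < rf e z'.1
  · obtain ⟨e, he, he'⟩ := hside
    by_cases hall : ∀ m, gr e.toNat m s = gr e.toNat m s'
    · have h1 : ∀ m : ℕ, |PP s - PP s'| ≤ 2 * (1 / 3) ^ m := fun m => PP_gr (hall m)
      have h2 : Tendsto (fun m : ℕ => 2 * (1 / 3 : ℝ) ^ m) atTop (𝓝 0) := by
        have := (tendsto_pow_atTop_nhds_zero_of_lt_one (by norm_num : (0 : ℝ) ≤ 1 / 3)
          (by norm_num)).const_mul 2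
        simpa using this
      have h3 : |PP s - PP s'| ≤ 0 := ge_of_tendsto' h2 h1
      have := dist_nonneg (x := z) (y := z')
      linarith
    · push Not at hall
      classical
      set m := Nat.find hall with hm
      have hne : gr e.toNat m s ≠ gr e.toNat m s' := Nat.find_spec hall
      have hm0 : m ≠ 0 := by
        intro h0
        rw [h0] at hne
        exact hne rfl
      obtain ⟨n, hn⟩ := Nat.exists_eq_succ_of_ne_zero hm0
      have heq : gr e.toNat n s = gr e.toNat n s' := by
        by_contra hcon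
        exact Nat.find_min hall (m := n) (by omega) hcon
      have h1 := PP_gr heq
      have h2 := sep (h e he) (h' e he') hne
      have h3 : (1 / 3 : ℝ) ^ m ≤ (2 / 5) ^ m := pow_le_pow_left₀ (by norm_num) (by norm_num) m
      have h4 : (1 / 3 : ℝ) ^ n = 3 * (1 / 3) ^ m := by
        rw [hn, Nat.succ_eq_add_one, pow_succ]; ring
      rw [h4] at h1
      linarith
  · have h1 : |PP s - PP s'| ≤ 1 := by
      have a1 := SS_nonneg ok_pw s
      have a2 := SS_le_one ok_pw s
      have a3 := SS_nonneg ok_pw s'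
      have a4 := SS_le_one ok_pw s'
      unfold PP
      rw [abs_le]; constructor <;> linarith
    have h2 : 1 ≤ dist z z' := by
      push Not at hside
      have f0 := hside false
      have f1 := hside true
      simp only [rf, Bool.false_eq_true, if_false, if_true] at f0 f1
      rw [Prod.dist_eq]
      refine le_max_of_le_left ?_
      rw [Real.dist_eq]
      rcases le_or_gt z.1 0 with h0 | h0
      · have h5 := f1 (by linarith)
        rw [abs_sub_comm]
        exact le_trans (by linarith) (le_abs_self _)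
      · have h5 := f0 h0
        have h6 : 1 ≤ z.1 := by
          by_contra hcon
          have := f1 (by linarith)
          linarith
        exact le_trans (by linarith) (le_abs_self _)
    linarith

end Pool.Agent.R674.EX
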